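import Pool.Agent.H73.KS.Var

set_option autoImplicit false

/-!
# All `x` at once
-/

namespace Pool.Agent.H73.KS

open Finset

/-- the root of order 40 -/
noncomputable def rt (x : ℕ) : ℕ := ⌊(x : ℝ) ^ (1 / 40 : ℝ)⌋₊

theorem rt_mono {x y : ℕ} (h : x ≤ y) : rt x ≤ rt y := by
  unfold rt
  exact Nat.floor_mono (Real.rpow_le_rpow (Nat.cast_nonneg _) (by exact_mod_cast h) (by norm_num))

theorem rt_le (x : ℕ) : (rt x : ℝ) ≤ (x : ℝ) ^ (1 / 40 : ℝ) := Nat.floor_le (by positivity)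

theorem lt_rt (x : ℕ) : (x : ℝ) ^ (1 / 40 : ℝ) < rt x + 1 := Nat.lt_floor_add_one _

theorem rt_pos {x : ℕ} (hx : 1 ≤ x) : 1 ≤ rt x := by
  unfold rt
  rw [Nat.one_le_floor_iff]
  exact Real.one_le_rpow (by exact_mod_cast hx) (by norm_num)

theorem root_pow (x : ℕ) : ((x : ℝ) ^ (1 / 40 : ℝ)) ^ 40 = x := by
  rw [← Real.rpow_natCast, ← Real.rpow_mul (Nat.cast_nonneg _)]
  norm_num

theorem rt_pow_le (x : ℕ) : rt x ^ 40 ≤ x := by
  have h : (rt x : ℝ) ^ 40 ≤ x := by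
    rw [← root_pow x]
    exact pow_le_pow_left₀ (Nat.cast_nonneg _) (rt_le x) _
  exact_mod_cast h

theorem lt_rt_pow (x : ℕ) : x < (rt x + 1) ^ 40 := by
  have h : (x : ℝ) < ((rt x : ℝ) + 1) ^ 40 := by
    rw [← root_pow x]
    exact pow_lt_pow_left₀ (lt_rt x) (by positivity) (by norm_num)
  exact_mod_cast h

theorem gap {m : ℝ} (hm : 1 ≤ m) : (m + 1) ^ 40 - m ^ 40 ≤ 2 ^ 45 * m ^ 39 := by
  have h0 : 0 < m + 1 := by linarith
  have h1 := one_add_mul_le_pow (a := -1 / (m + 1)) (by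
    rw [le_div_iff₀ h0]
    linarith) 40
  have h2 : (1 + -1 / (m + 1)) = m / (m + 1) := by field_simp; ring
  rw [h2, div_pow] at h1
  have h3 : (1 + ((40 : ℕ) : ℝ) * (-1 / (m + 1))) * (m + 1) ^ 40 ≤ m ^ 40 := by
    have h4 := mul_le_mul_of_nonneg_right h1 (by positivity : 0 ≤ (m + 1) ^ 40)
    rw [div_mul_cancel₀ _ (by positivity)] at h4
    exact h4
  have h4 : (1 + ((40 : ℕ) : ℝ) * (-1 / (m + 1))) * (m + 1) ^ 40 =
      (m + 1) ^ 40 - 40 * (m + 1) ^ 39 := by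
    field_simp
    push_cast
    ring
  rw [h4] at h3
  have h5 : (m + 1) ^ 39 ≤ (2 * m) ^ 39 := pow_le_pow_left₀ (by linarith) (by linarith) _
  have h6 : (2 * m) ^ 39 = 2 ^ 39 * m ^ 39 := by ring
  rw [h6] at h5
  have h7 : 0 ≤ m ^ 39 := by positivity
  linarith

/-- the exceptional pairs of exponents at one scale -/
theorem one_scale (b c : ℕ) (hb : 2 ≤ b) (hc : 2 ≤ c) (hind : ∀ i j : ℕ, b ^ i = c ^ j → i = 0)
    {B : ℝ} {F : ∀ p : ℕ, ZMod p → ℝ} (hF : Adm B F) (u : ℤ) {m N : ℕ} (hm : 1 ≤ m)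
    (hN : m ^ 120 ≤ N) :
    open scoped Classical in
    (((range N ×ˢ range N).filter fun e => (m : ℝ) ^ 39 <
      |∑ p ∈ Qs b c u (m ^ 40), F p (arg b c u e.1 e.2 : ZMod p)|).card : ℝ) ≤
      (42 + 32 * (b * c)) * B ^ 2 * (N : ℝ) ^ 2 * (((m : ℝ) ^ 2)⁻¹) := by
  classical
  set E := (range N ×ˢ range N).filter fun e => (m : ℝ) ^ 39 <
      |∑ p ∈ Qs b c u (m ^ 40), F p (arg b c u e.1 e.2 : ZMod p)| with hE
  have h1 := variance b c hb hc hind hF u hm hN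
  have hm0 : (0 : ℝ) < m := by exact_mod_cast hm
  rw [← sum_product (f := fun e : ℕ × ℕ =>
    (∑ p ∈ Qs b c u (m ^ 40), F p (arg b c u e.1 e.2 : ZMod p)) ^ 2)] at h1
  have h2 : (E.card : ℝ) * (m : ℝ) ^ 78 ≤ ∑ e ∈ range N ×ˢ range N,
      (∑ p ∈ Qs b c u (m ^ 40), F p (arg b c u e.1 e.2 : ZMod p)) ^ 2 := by
    calc (E.card : ℝ) * (m : ℝ) ^ 78 = ∑ e ∈ E, (m : ℝ) ^ 78 := by
          rw [sum_const, nsmul_eq_mul]
      _ ≤ ∑ e ∈ E, (∑ p ∈ Qs b c u (m ^ 40), F p (arg b c u e.1 e.2 : ZMod p)) ^ 2 := by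
          refine sum_le_sum fun e he => ?_
          rw [hE, mem_filter] at he
          rw [← sq_abs]
          calc (m : ℝ) ^ 78 = ((m : ℝ) ^ 39) ^ 2 := by ring
            _ ≤ _ := pow_le_pow_left₀ (by positivity) he.2.le _
      _ ≤ _ := sum_le_sum_of_subset_of_nonneg (filter_subset _ _) fun _ _ _ => sq_nonneg _
  have h3 := h2.trans h1
  have h4 : (0 : ℝ) < (m : ℝ) ^ 78 := by positivity
  rw [← div_eq_mul_inv, le_div_iff₀ (by positivity)]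
  have h5 : ((E.card : ℝ) * (m : ℝ) ^ 2) * (m : ℝ) ^ 76 ≤
      ((42 + 32 * (b * c)) * B ^ 2 * (N : ℝ) ^ 2) * (m : ℝ) ^ 76 := by
    calc _ = (E.card : ℝ) * (m : ℝ) ^ 78 := by ring
      _ ≤ _ := h3
  exact le_of_mul_le_mul_right h5 (by positivity)

/-- a large deviation at some `x` -/
def BadAt (b c : ℕ) (u : ℤ) (F : ∀ p : ℕ, ZMod p → ℝ) (K : ℝ) (X N : ℕ) (e : ℕ × ℕ) : Prop :=
  ∃ x : ℕ, X ≤ x ∧ x ^ 3 ≤ N ∧ K * (x : ℝ) ^ (39 / 40 : ℝ) <
      |∑ p ∈ Qs b c u x, F p (arg b c u e.1 e.2 : ZMod p)|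

/-- all scales -/
theorem all_scales (b c : ℕ) (hb : 2 ≤ b) (hc : 2 ≤ c)
    (hind : ∀ i j : ℕ, b ^ i = c ^ j → i = 0)
    {B : ℝ} {F : ∀ p : ℕ, ZMod p → ℝ} (hF : Adm B F) (u : ℤ) {X N : ℕ} (hX : 1 ≤ X) :
    open scoped Classical in
    (((range N ×ˢ range N).filter (BadAt b c u F (1 + 2 ^ 45 * B) X N)).card : ℝ) ≤
      4 * ((42 + 32 * (b * c)) * B ^ 2) * (N : ℝ) ^ 2 / (X : ℝ) ^ (1 / 40 : ℝ) := by
  classical
  have hB0 := hF.1
  set m₀ := rt X with hm₀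
  have hm₀1 : 1 ≤ m₀ := rt_pos hX
  set Ms : Finset ℕ := (Ioo (m₀ - 1) (N + 1)).filter fun m => m ^ 120 ≤ N with hMs
  set E : ℕ → Finset (ℕ × ℕ) := fun m => (range N ×ˢ range N).filter fun e => (m : ℝ) ^ 39 <
      |∑ p ∈ Qs b c u (m ^ 40), F p (arg b c u e.1 e.2 : ZMod p)| with hE
  have hsub : ((range N ×ˢ range N).filter (BadAt b c u F (1 + 2 ^ 45 * B) X N)) ⊆
      Ms.biUnion E := by
    intro e he
    rw [mem_filter] at he
    obtain ⟨he1, x, hx1, hx2, hx3⟩ := he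
    set m := rt x with hm
    have hmm : m₀ ≤ m := rt_mono hx1
    have hm1 : 1 ≤ m := hm₀1.trans hmm
    have hmN : m ^ 120 ≤ N := by
      calc m ^ 120 = (m ^ 40) ^ 3 := by ring
        _ ≤ x ^ 3 := Nat.pow_le_pow_left (rt_pow_le x) _
        _ ≤ N := hx2
    have hmN' : m < N + 1 := by
      have : m ≤ m ^ 120 := Nat.le_self_pow (by norm_num) _
      omega
    rw [mem_biUnion]
    refine ⟨m, ?_, ?_⟩
    · rw [hMs, mem_filter, mem_Ioo]
      exact ⟨⟨by omega, hmN'⟩, hmN⟩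
    · rw [hE]
      simp only
      rw [mem_filter]
      refine ⟨he1, ?_⟩
      by_contra hcon
      push Not at hcon
      apply absurd hx3
      push Not
      have hsub2 : Qs b c u (m ^ 40) ⊆ Qs b c u x := by
        intro p hp
        rw [mem_Qs] at hp ⊢
        exact ⟨hp.1.trans (rt_pow_le x), hp.2⟩
      rw [← sum_sdiff hsub2]
      refine (abs_add_le _ _).trans ?_
      have h1 : |∑ p ∈ Qs b c u x \ Qs b c u (m ^ 40), F p (arg b c u e.1 e.2 : ZMod p)| ≤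
          B * (2 ^ 45 * (m : ℝ) ^ 39) := by
        refine (abs_sum_le_sum_abs _ _).trans ?_
        have h2 : ∀ p ∈ Qs b c u x \ Qs b c u (m ^ 40),
            |F p (arg b c u e.1 e.2 : ZMod p)| ≤ B := by
          intro p hp
          rw [mem_sdiff, mem_Qs] at hp
          exact (hF.2 p ⟨hp.1.2.1⟩).1 _
        refine (sum_le_sum h2).trans ?_
        rw [sum_const, nsmul_eq_mul, mul_comm]
        refine mul_le_mul_of_nonneg_left ?_ hB0
        have h3 : Qs b c u x \ Qs b c u (m ^ 40) ⊆ Ioc (m ^ 40) ((m + 1) ^ 40) := by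
          intro p hp
          rw [mem_sdiff, mem_Qs, mem_Qs] at hp
          rw [mem_Ioc]
          have h4 := lt_rt_pow x
          refine ⟨?_, hp.1.1.trans h4.le⟩
          by_contra h5
          push Not at h5
          exact hp.2 ⟨h5, hp.1.2⟩
        have h4 := card_le_card h3
        rw [Nat.card_Ioc] at h4
        have h5 : (((Qs b c u x \ Qs b c u (m ^ 40)).card : ℕ) : ℝ) ≤
            (((m + 1) ^ 40 - m ^ 40 : ℕ) : ℝ) := by exact_mod_cast h4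
        rw [Nat.cast_sub (Nat.pow_le_pow_left (Nat.le_succ m) _)] at h5
        push_cast at h5
        exact h5.trans (gap (by exact_mod_cast hm1))
      have h2 : (m : ℝ) ^ 39 ≤ (x : ℝ) ^ (39 / 40 : ℝ) := by
        have h3 := pow_le_pow_left₀ (Nat.cast_nonneg _) (rt_le x) 39
        have h4 : ((x : ℝ) ^ (1 / 40 : ℝ)) ^ 39 = (x : ℝ) ^ (39 / 40 : ℝ) := by
          rw [← Real.rpow_natCast, ← Real.rpow_mul (Nat.cast_nonneg _)]
          norm_num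
        rw [h4] at h3
        exact h3
      calc _ ≤ B * (2 ^ 45 * (m : ℝ) ^ 39) + (m : ℝ) ^ 39 := add_le_add h1 hcon
        _ = (1 + 2 ^ 45 * B) * (m : ℝ) ^ 39 := by ring
        _ ≤ _ := mul_le_mul_of_nonneg_left h2 (by positivity)
  have h1 : ((Ms.biUnion E).card : ℝ) ≤ ∑ m ∈ Ms, ((E m).card : ℝ) := by
    exact_mod_cast card_biUnion_le
  set K : ℝ := (42 + 32 * (b * c)) * B ^ 2 with hK
  have hK0 : 0 ≤ K := by positivity
  have h2 : ∀ m ∈ Ms, ((E m).card : ℝ) ≤ K * (N : ℝ) ^ 2 * (((m : ℝ) ^ 2)⁻¹) := by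
    intro m hm
    rw [hMs, mem_filter, mem_Ioo] at hm
    exact one_scale b c hb hc hind hF u (by omega) hm.2
  have h3 : ∑ m ∈ Ms, (((m : ℝ) ^ 2)⁻¹) ≤ 2 / m₀ := by
    have h4 := sum_Ioo_inv_sq_le (α := ℝ) (m₀ - 1) (N + 1)
    have h5 : (((m₀ - 1 : ℕ) : ℝ) + 1) = m₀ := by
      rw [Nat.cast_sub hm₀1]
      push_cast
      ring
    rw [h5] at h4
    refine le_trans ?_ h4
    exact sum_le_sum_of_subset_of_nonneg (filter_subset _ _) fun _ _ _ => by positivity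
  have h4 : (2 : ℝ) / m₀ ≤ 4 / (X : ℝ) ^ (1 / 40 : ℝ) := by
    have h5 := lt_rt X
    have h6 : (1 : ℝ) ≤ m₀ := by exact_mod_cast hm₀1
    have h7 : (0 : ℝ) < (X : ℝ) ^ (1 / 40 : ℝ) :=
      Real.rpow_pos_of_pos (by exact_mod_cast hX) _
    rw [div_le_div_iff₀ (by linarith) h7]
    rw [← hm₀] at h5
    linarith
  calc (((range N ×ˢ range N).filter (BadAt b c u F (1 + 2 ^ 45 * B) X N)).card : ℝ) ≤
        ((Ms.biUnion E).card : ℝ) := by exact_mod_cast card_le_card hsub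
    _ ≤ ∑ m ∈ Ms, ((E m).card : ℝ) := h1
    _ ≤ ∑ m ∈ Ms, K * (N : ℝ) ^ 2 * (((m : ℝ) ^ 2)⁻¹) := sum_le_sum h2
    _ = K * (N : ℝ) ^ 2 * ∑ m ∈ Ms, (((m : ℝ) ^ 2)⁻¹) := by rw [← mul_sum]
    _ ≤ K * (N : ℝ) ^ 2 * (4 / (X : ℝ) ^ (1 / 40 : ℝ)) := by
        gcongr
        exact h3.trans h4
    _ = _ := by ring

end Pool.Agent.H73.KS
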