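import Pool.Agent.H73.KS.Set

set_option autoImplicit false

/-!
# The number of bad primes
-/

namespace Pool.Agent.H73.KS

open Finset

theorem card_primeFactors_le {n t : ℕ} (h : n ≤ 2 ^ t) : n.primeFactors.card ≤ t := by
  rcases Nat.eq_zero_or_pos n with h0 | h0
  · subst h0
    simp
  · have h1 : 2 ^ n.primeFactors.card ≤ ∏ p ∈ n.primeFactors, p :=
      pow_card_le_prod _ _ _ fun p hp => (Nat.prime_of_mem_primeFactors hp).two_le
    have h2 : ∏ p ∈ n.primeFactors, p ≤ n := Nat.le_of_dvd h0 (Nat.prod_primeFactors_dvd n)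
    exact (Nat.pow_le_pow_iff_right (by norm_num)).1 (h1.trans (h2.trans h))

/-- the number of bad primes -/
theorem bad_card (b c : ℕ) (hb : 2 ≤ b) (hc : 2 ≤ c) (hind : ∀ i j : ℕ, b ^ i = c ^ j → i = 0)
    (s : ℕ) (Q : Finset ℕ)
    (hQ : ∀ p ∈ Q, p.Prime ∧ ¬ p ∣ b ∧ ¬ p ∣ c ∧ ¬ Good (b : ℤ) (c : ℤ) s p) :
    Q.card ≤ 2 * (b * c) * (s + 1) ^ 3 := by
  classical
  set A : ℕ × ℕ → ℕ := fun e => b ^ e.1 * c ^ e.2 - 1 with hA
  set B : ℕ × ℕ → ℕ := fun e => ((b : ℤ) ^ e.1 - (c : ℤ) ^ e.2).natAbs with hB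
  have hsub : Q ⊆ ((Ex s).biUnion fun e => (A e).primeFactors ∪ (B e).primeFactors) := by
    intro p hp
    obtain ⟨hpp, hpb, hpc, hG⟩ := hQ p hp
    have : Fact p.Prime := ⟨hpp⟩
    have hb0 : ((b : ℤ) : ZMod p) ≠ 0 := by
      rw [Int.cast_natCast]
      intro h
      exact hpb ((ZMod.natCast_eq_zero_iff _ _).1 h)
    have hc0 : ((c : ℤ) : ZMod p) ≠ 0 := by
      rw [Int.cast_natCast]
      intro h
      exact hpc ((ZMod.natCast_eq_zero_iff _ _).1 h)
    unfold Good Set.InjOn at hG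
    push Not at hG
    obtain ⟨e, he, e', he', heq, hne⟩ := hG
    rw [mem_coe] at he he'
    unfold Ex at he he'
    rw [mem_product, mem_range, mem_range] at he he'
    push_cast at heq hb0 hc0
    -- both coordinates
    have key : ∀ e e' : ℕ × ℕ, e.1 < s + 1 → e.2 < s + 1 → e'.1 < s + 1 → e'.2 < s + 1 →
        (b : ZMod p) ^ e.1 * (c : ZMod p) ^ e.2 = (b : ZMod p) ^ e'.1 * (c : ZMod p) ^ e'.2 →
        e ≠ e' → e.1 ≤ e'.1 → ∃ d ∈ Ex s, p ∈ (A d).primeFactors ∪ (B d).primeFactors := by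
      intro e e' h1 h2 h3 h4 heq hne hle
      obtain ⟨m, hm⟩ := Nat.exists_eq_add_of_le hle
      rcases le_total e.2 e'.2 with hle2 | hle2
      · obtain ⟨n, hn⟩ := Nat.exists_eq_add_of_le hle2
        have h5 : (b : ZMod p) ^ m * (c : ZMod p) ^ n = 1 := by
          rw [hm, hn, pow_add, pow_add] at heq
          have h6 : (b : ZMod p) ^ e.1 * (c : ZMod p) ^ e.2 ≠ 0 :=
            mul_ne_zero (pow_ne_zero _ hb0) (pow_ne_zero _ hc0)
          apply mul_left_cancel₀ h6
          rw [mul_one]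
          calc _ = (b : ZMod p) ^ e.1 * (b : ZMod p) ^ m *
                ((c : ZMod p) ^ e.2 * (c : ZMod p) ^ n) := by ring
            _ = _ := heq.symm
        have hmn : m ≠ 0 ∨ n ≠ 0 := by
          by_contra h
          push Not at h
          apply hne
          ext
          · rw [hm, h.1, add_zero]
          · rw [hn, h.2, add_zero]
        refine ⟨(m, n), ?_, ?_⟩
        · unfold Ex
          rw [mem_product, mem_range, mem_range]
          exact ⟨by simp only; omega, by simp only; omega⟩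
        · rw [mem_union]
          left
          rw [Nat.mem_primeFactors]
          have h7 : 1 < b ^ m * c ^ n := by
            rcases hmn with h | h
            · calc 1 < b ^ m := Nat.one_lt_pow h (by omega)
                _ ≤ b ^ m * c ^ n := Nat.le_mul_of_pos_right _ (by positivity)
            · calc 1 < c ^ n := Nat.one_lt_pow h (by omega)
                _ ≤ b ^ m * c ^ n := Nat.le_mul_of_pos_left _ (by positivity)
          refine ⟨hpp, ?_, ?_⟩
          · rw [hA]
            simp only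
            rw [← ZMod.natCast_eq_zero_iff, Nat.cast_sub h7.le]
            push_cast
            rw [h5, sub_self]
          · rw [hA]
            simp only
            omega
      · obtain ⟨n, hn⟩ := Nat.exists_eq_add_of_le hle2
        have h5 : (b : ZMod p) ^ m = (c : ZMod p) ^ n := by
          rw [hm, hn, pow_add, pow_add] at heq
          have h6 : (b : ZMod p) ^ e.1 * (c : ZMod p) ^ e'.2 ≠ 0 :=
            mul_ne_zero (pow_ne_zero _ hb0) (pow_ne_zero _ hc0)
          apply mul_left_cancel₀ h6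
          calc (b : ZMod p) ^ e.1 * (c : ZMod p) ^ e'.2 * (b : ZMod p) ^ m =
                (b : ZMod p) ^ e.1 * (b : ZMod p) ^ m * (c : ZMod p) ^ e'.2 := by ring
            _ = (b : ZMod p) ^ e.1 * ((c : ZMod p) ^ e'.2 * (c : ZMod p) ^ n) := heq.symm
            _ = _ := by ring
        have hmn : m ≠ 0 ∨ n ≠ 0 := by
          by_contra h
          push Not at h
          apply hne
          ext
          · rw [hm, h.1, add_zero]
          · rw [hn, h.2, add_zero]
        refine ⟨(m, n), ?_, ?_⟩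
        · unfold Ex
          rw [mem_product, mem_range, mem_range]
          exact ⟨by simp only; omega, by simp only; omega⟩
        · rw [mem_union]
          right
          rw [Nat.mem_primeFactors]
          refine ⟨hpp, ?_, ?_⟩
          · rw [hB]
            simp only
            rw [← Int.natCast_dvd, ← ZMod.intCast_zmod_eq_zero_iff_dvd]
            push_cast
            rw [h5, sub_self]
          · rw [hB]
            simp only
            intro h0
            rw [Int.natAbs_eq_zero, sub_eq_zero] at h0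
            have h8 : b ^ m = c ^ n := by exact_mod_cast h0
            have h9 := hind m n h8
            rw [h9, pow_zero] at h8
            rcases hmn with h | h
            · exact h h9
            · have : 1 < c ^ n := Nat.one_lt_pow h (by omega)
              omega
    rw [mem_biUnion]
    rcases le_total e.1 e'.1 with hle | hle
    · exact key e e' he.1 he.2 he'.1 he'.2 heq hne hle
    · exact key e' e he'.1 he'.2 he.1 he.2 heq.symm (Ne.symm hne) hle
  have hbc : b ^ s * c ^ s ≤ 2 ^ (b * c * s) := by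
    rw [← mul_pow, pow_mul]
    exact Nat.pow_le_pow_left Nat.lt_two_pow_self.le _
  have hle : ∀ e ∈ Ex s, ((A e).primeFactors ∪ (B e).primeFactors).card ≤ 2 * (b * c * s) := by
    intro e he
    unfold Ex at he
    rw [mem_product, mem_range, mem_range] at he
    have h1 : b ^ e.1 ≤ b ^ s := Nat.pow_le_pow_right (by omega) (by omega)
    have h2 : c ^ e.2 ≤ c ^ s := Nat.pow_le_pow_right (by omega) (by omega)
    have h3 : 1 ≤ b ^ s := Nat.one_le_pow _ _ (by omega)
    have h4 : 1 ≤ c ^ s := Nat.one_le_pow _ _ (by omega)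
    refine (card_union_le _ _).trans ?_
    have h5 : (A e).primeFactors.card ≤ b * c * s := by
      apply card_primeFactors_le
      rw [hA]
      simp only
      exact (Nat.sub_le _ _).trans ((Nat.mul_le_mul h1 h2).trans hbc)
    have h6 : (B e).primeFactors.card ≤ b * c * s := by
      apply card_primeFactors_le
      refine le_trans ?_ hbc
      rw [hB]
      simp only
      have h7 : b ^ e.1 ≤ b ^ s * c ^ s := h1.trans (Nat.le_mul_of_pos_right _ h4)
      have h8 : c ^ e.2 ≤ b ^ s * c ^ s := h2.trans (Nat.le_mul_of_pos_left _ h3)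
      have h9 : ((b : ℤ) ^ e.1) = ((b ^ e.1 : ℕ) : ℤ) := by push_cast; rfl
      have h10 : ((c : ℤ) ^ e.2) = ((c ^ e.2 : ℕ) : ℤ) := by push_cast; rfl
      rw [h9, h10]
      omega
    omega
  calc Q.card ≤ ((Ex s).biUnion fun e => (A e).primeFactors ∪ (B e).primeFactors).card :=
        card_le_card hsub
    _ ≤ ∑ e ∈ Ex s, ((A e).primeFactors ∪ (B e).primeFactors).card := card_biUnion_le
    _ ≤ ∑ e ∈ Ex s, 2 * (b * c * s) := sum_le_sum hle
    _ = (s + 1) ^ 2 * (2 * (b * c * s)) := by rw [sum_const, card_Ex, smul_eq_mul]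
    _ ≤ (s + 1) ^ 2 * (2 * (b * c * (s + 1))) := by gcongr; omega
    _ = 2 * (b * c) * (s + 1) ^ 3 := by ring

/-- the mean of the greatest common divisors -/
theorem gcd_sum (X : ℕ) : ((∑ m ∈ Ioc 0 X, ∑ n ∈ Ioc 0 X, Nat.gcd n m : ℕ) : ℝ) ≤
    (X : ℝ) ^ 2 * (1 + Real.log X) := by
  classical
  have h1 : ∀ m ∈ Ioc 0 X, ∀ n ∈ Ioc 0 X, Nat.gcd n m ≤
      ∑ d ∈ Ioc 0 X, if d ∣ m ∧ d ∣ n then d else 0 := by
    intro m hm n hn
    rw [mem_Ioc] at hm hn
    have h2 : Nat.gcd n m ∈ Ioc 0 X := by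
      rw [mem_Ioc]
      exact ⟨Nat.gcd_pos_of_pos_left _ hn.1, (Nat.gcd_le_left _ hn.1).trans hn.2⟩
    have h3 := single_le_sum (f := fun d => if d ∣ m ∧ d ∣ n then d else 0)
      (fun d _ => Nat.zero_le _) h2
    rw [if_pos ⟨Nat.gcd_dvd_right _ _, Nat.gcd_dvd_left _ _⟩] at h3
    exact h3
  have h2 : ∑ m ∈ Ioc 0 X, ∑ n ∈ Ioc 0 X, Nat.gcd n m ≤
      ∑ d ∈ Ioc 0 X, d * ((X / d) * (X / d)) := by
    calc _ ≤ ∑ m ∈ Ioc 0 X, ∑ n ∈ Ioc 0 X, ∑ d ∈ Ioc 0 X, (if d ∣ m ∧ d ∣ n then d else 0) :=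
          sum_le_sum fun m hm => sum_le_sum fun n hn => h1 m hm n hn
      _ = ∑ d ∈ Ioc 0 X, ∑ m ∈ Ioc 0 X, ∑ n ∈ Ioc 0 X, (if d ∣ m ∧ d ∣ n then d else 0) := by
          rw [sum_congr rfl fun m _ => sum_comm, sum_comm]
      _ = ∑ d ∈ Ioc 0 X, d * ((X / d) * (X / d)) := by
          refine sum_congr rfl fun d _ => ?_
          have e1 : ∀ m ∈ Ioc 0 X, ∑ n ∈ Ioc 0 X, (if d ∣ m ∧ d ∣ n then d else 0) =
              (if d ∣ m then 1 else 0) * (d * (X / d)) := by
            intro m _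
            by_cases h : d ∣ m
            · simp only [h, true_and, if_true, one_mul]
              rw [← sum_filter, sum_const, Nat.Ioc_filter_dvd_card_eq_div, smul_eq_mul, mul_comm]
            · simp [h]
          rw [sum_congr rfl e1, ← sum_mul, ← sum_filter, sum_const,
            Nat.Ioc_filter_dvd_card_eq_div, smul_eq_mul]
          ring
  have h3 : ((∑ m ∈ Ioc 0 X, ∑ n ∈ Ioc 0 X, Nat.gcd n m : ℕ) : ℝ) ≤
      ((∑ d ∈ Ioc 0 X, d * ((X / d) * (X / d)) : ℕ) : ℝ) := by exact_mod_cast h2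
  refine h3.trans ?_
  push_cast
  have h4 : ∀ d ∈ Ioc 0 X, (d : ℝ) * (((X / d : ℕ) : ℝ) * ((X / d : ℕ) : ℝ)) ≤
      (X : ℝ) ^ 2 * ((d : ℝ)⁻¹) := by
    intro d hd
    rw [mem_Ioc] at hd
    have hd0 : (0 : ℝ) < d := by exact_mod_cast hd.1
    have h5 : ((X / d : ℕ) : ℝ) ≤ X / d := Nat.cast_div_le
    calc (d : ℝ) * (((X / d : ℕ) : ℝ) * ((X / d : ℕ) : ℝ)) ≤ d * ((X / d) * (X / d)) := by gcongr
      _ = _ := by field_simp
  refine (sum_le_sum h4).trans ?_
  rw [← mul_sum]
  have h5 := harmonic_le_one_add_log X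
  have h6 : ∑ d ∈ Ioc 0 X, ((d : ℝ)⁻¹) = ((harmonic X : ℚ) : ℝ) := by
    rw [harmonic_eq_sum_Icc]
    push_cast
    rfl
  rw [h6]
  gcongr

end Pool.Agent.H73.KS
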