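import Pool.Graph.R_seed8.TH375.KL.Moments
import Pool.Graph.R_seed8.H498R2.KlWeil

set_option autoImplicit false

/-!
# Multiplicative Fourier coefficients of Kloosterman sums and of their squares
-/

namespace Pool.Agent.H73.KS

open Finset Pool.Agent.TH375.KL ComplexConjugate

variable {p : ℕ} [hp : Fact p.Prime]

/-- the standard character -/
noncomputable abbrev psi (p : ℕ) [Fact p.Prime] : AddChar (ZMod p) ℂ := ZMod.stdAddChar (N := p)

theorem norm_gauss_sq {χ : MulChar (ZMod p) ℂ} (hχ : χ ≠ 1) : ‖gaussSum χ (psi p)‖ ^ 2 = p := by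
  have h1 := gaussSum_mul_gaussSum_eq_card hχ (prim (p := p))
  rw [← star_gaussSum_eq, ZMod.card] at h1
  have h2 : ((‖gaussSum χ (psi p)‖ ^ 2 : ℝ) : ℂ) = (p : ℂ) := by
    rw [← h1]
    have := Complex.mul_conj (gaussSum χ (psi p))
    rw [Complex.normSq_eq_norm_sq] at this
    rw [← this]
    rfl
  exact_mod_cast h2

theorem norm_gauss_one : gaussSum (1 : MulChar (ZMod p) ℂ) (psi p) = -1 := by
  apply gaussSum_one_left
  intro h
  exact (prim (p := p)) one_ne_zero (by simp [AddChar.mulShift_one, h])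

theorem norm_gauss_le (χ : MulChar (ZMod p) ℂ) : ‖gaussSum χ (psi p)‖ ^ 2 ≤ p := by
  by_cases h : χ = 1
  · subst h
    rw [norm_gauss_one, norm_neg, norm_one, one_pow]
    exact_mod_cast hp.out.one_le
  · exact (norm_gauss_sq h).le

theorem inner_sum (χ : MulChar (ZMod p) ℂ) {z : ZMod p} (hz : z ≠ 0) :
    ∑ a : ZMod p, χ a * psi p (a * z) = χ z⁻¹ * gaussSum χ (psi p) := by
  have h1 := gaussSum_mulShift_eq χ (psi p) (Units.mk0 z hz)
  rw [Units.val_mk0, MulChar.inv_apply'] at h1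
  rw [← h1]
  unfold gaussSum
  refine sum_congr rfl fun a _ => ?_
  rw [AddChar.mulShift_apply, mul_comm z a]

/-- the Fourier coefficients of the Kloosterman sum -/
theorem hat_one (χ : MulChar (ZMod p) ℂ) :
    ∑ a : ZMod p, χ a * KK p a 1 = gaussSum χ (psi p) ^ 2 := by
  unfold KK Pool.Agent.Helper916.Kl
  simp_rw [mul_sum]
  rw [sum_comm]
  have h1 : ∀ z ∈ univ.erase (0 : ZMod p), ∑ a : ZMod p, χ a * psi p (a * z + 1 * z⁻¹) =
      (χ z⁻¹ * psi p z⁻¹) * gaussSum χ (psi p) := by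
    intro z hz
    have hz0 := (mem_erase.1 hz).1
    simp_rw [one_mul, AddChar.map_add_eq_mul, ← mul_assoc]
    rw [← sum_mul, inner_sum χ hz0]
    ring
  rw [sum_congr rfl h1, ← sum_mul, sq]
  congr 1
  unfold gaussSum
  have h2 : ∑ z ∈ univ.erase (0 : ZMod p), χ z⁻¹ * psi p z⁻¹ =
      ∑ z ∈ univ.erase (0 : ZMod p), χ z * psi p z := by
    refine sum_nbij' (fun z => z⁻¹) (fun z => z⁻¹) ?_ ?_ ?_ ?_ ?_
    · intro z hz
      rw [mem_erase] at hz ⊢
      exact ⟨inv_ne_zero hz.1, mem_univ _⟩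
    · intro z hz
      rw [mem_erase] at hz ⊢
      exact ⟨inv_ne_zero hz.1, mem_univ _⟩
    · intro z _
      exact inv_inv z
    · intro z _
      exact inv_inv z
    · intro z _
      rfl
  rw [h2, ← add_sum_erase _ _ (mem_univ (0 : ZMod p)), MulChar.map_zero, zero_mul, zero_add]

theorem norm_hat_one (χ : MulChar (ZMod p) ℂ) : ‖∑ a : ZMod p, χ a * KK p a 1‖ ≤ p := by
  rw [hat_one, norm_pow]
  exact norm_gauss_le χ

theorem norm_jacobi {χ : MulChar (ZMod p) ℂ} (hχ : χ ≠ 1) :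
    ‖jacobiSum χ χ‖ ≤ Real.sqrt p := by
  have hp1 : (1 : ℝ) ≤ p := by exact_mod_cast hp.out.one_le
  have hs : 1 ≤ Real.sqrt p := Real.one_le_sqrt.2 hp1
  by_cases h : χ * χ = 1
  · have h1 : χ = χ⁻¹ := (inv_eq_of_mul_eq_one_right h).symm
    have h2 := jacobiSum_nontrivial_inv hχ
    rw [← h1] at h2
    rw [h2, norm_neg]
    exact (DirichletCharacter.norm_le_one χ _).trans hs
  · have h1 := jacobiSum_mul_nontrivial h (psi p)
    have h2 : ‖gaussSum (χ * χ) (psi p)‖ ^ 2 = p := norm_gauss_sq h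
    have h3 : ‖gaussSum χ (psi p)‖ ^ 2 = p := norm_gauss_sq hχ
    have h4 := congrArg norm h1
    rw [norm_mul, norm_mul] at h4
    have h4' : ‖gaussSum χ (psi p)‖ * ‖gaussSum χ (psi p)‖ = p := by rw [← sq, h3]
    rw [h4'] at h4
    have h5 : ‖gaussSum (χ * χ) (psi p)‖ = Real.sqrt p := by
      rw [← h2, Real.sqrt_sq (norm_nonneg _)]
    rw [h5] at h4
    have h6 : Real.sqrt p * Real.sqrt p = p := Real.mul_self_sqrt (by linarith)
    have h7 : Real.sqrt p * ‖jacobiSum χ χ‖ = Real.sqrt p * Real.sqrt p := by rw [h4, h6]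
    exact (mul_left_cancel₀ (by positivity) h7).le

/-- the Fourier coefficients of the square of the Kloosterman sum -/
theorem hat_two {χ : MulChar (ZMod p) ℂ} (hχ : χ ≠ 1) :
    ∑ a : ZMod p, χ a * KK p a 1 ^ 2 = gaussSum χ (psi p) ^ 2 * jacobiSum χ χ := by
  classical
  have e1 : ∀ a : ZMod p, χ a * KK p a 1 ^ 2 =
      ∑ x ∈ univ.erase (0 : ZMod p), ∑ y ∈ univ.erase (0 : ZMod p),
        psi p (x⁻¹ + y⁻¹) * (χ a * psi p (a * (x + y))) := by
    intro a
    unfold KK Pool.Agent.Helper916.Kl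
    rw [sq, sum_mul_sum, mul_sum]
    refine sum_congr rfl fun x _ => ?_
    rw [mul_sum]
    refine sum_congr rfl fun y _ => ?_
    rw [← AddChar.map_add_eq_mul, mul_left_comm, ← AddChar.map_add_eq_mul]
    congr 2
    ring
  simp_rw [e1]
  rw [sum_comm]
  have e2 : ∀ x ∈ univ.erase (0 : ZMod p), ∑ a : ZMod p, ∑ y ∈ univ.erase (0 : ZMod p),
        psi p (x⁻¹ + y⁻¹) * (χ a * psi p (a * (x + y))) =
      gaussSum χ (psi p) * ∑ y ∈ univ.erase (0 : ZMod p), χ (x + y)⁻¹ * psi p (x⁻¹ + y⁻¹) := by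
    intro x _
    rw [sum_comm, mul_sum]
    refine sum_congr rfl fun y _ => ?_
    rw [← mul_sum]
    by_cases h : x + y = 0
    · rw [h]
      simp only [mul_zero, AddChar.map_zero_eq_one, mul_one, inv_zero, MulChar.map_zero, zero_mul]
      rw [MulChar.sum_eq_zero_of_ne_one hχ, mul_zero]
    · rw [inner_sum χ h]
      ring
  rw [sum_congr rfl e2, ← mul_sum, sq, mul_assoc]
  congr 1
  -- the change of variables
  have e3 : ∑ x ∈ univ.erase (0 : ZMod p), ∑ y ∈ univ.erase (0 : ZMod p),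
      χ (x + y)⁻¹ * psi p (x⁻¹ + y⁻¹) =
      ∑ x ∈ univ.erase (0 : ZMod p), ∑ s ∈ (univ.erase (0 : ZMod p)).erase x,
        χ s⁻¹ * psi p (x⁻¹ + (s - x)⁻¹) := by
    refine sum_congr rfl fun x hx => ?_
    have hx0 := (mem_erase.1 hx).1
    rw [← add_sum_erase (univ.erase (0 : ZMod p)) (fun y => χ (x + y)⁻¹ * psi p (x⁻¹ + y⁻¹))
      (mem_erase.2 ⟨neg_ne_zero.2 hx0, mem_univ (-x)⟩), add_neg_cancel, inv_zero,
      MulChar.map_zero, zero_mul, zero_add]
    refine sum_nbij' (fun y => x + y) (fun s => s - x) ?_ ?_ ?_ ?_ ?_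
    · intro y hy
      rw [mem_erase, mem_erase] at hy ⊢
      refine ⟨?_, ?_, mem_univ _⟩
      · intro h
        exact hy.2.1 (by simpa using h)
      · intro h
        exact hy.1 (eq_neg_of_add_eq_zero_right h)
    · intro s hs
      rw [mem_erase, mem_erase] at hs ⊢
      refine ⟨?_, ?_, mem_univ _⟩
      · intro h
        exact hs.2.1 (by simpa using h)
      · intro h
        exact hs.1 (sub_eq_zero.1 h)
    · intro y _
      ring
    · intro s _
      ring
    · intro y _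
      rw [add_sub_cancel_left]
  have e4 : ∑ x ∈ univ.erase (0 : ZMod p), ∑ s ∈ (univ.erase (0 : ZMod p)).erase x,
        χ s⁻¹ * psi p (x⁻¹ + (s - x)⁻¹) =
      ∑ s ∈ univ.erase (0 : ZMod p), ∑ x ∈ (univ.erase (0 : ZMod p)).erase s,
        χ s⁻¹ * psi p (x⁻¹ + (s - x)⁻¹) := by
    refine sum_comm' fun x s => ?_
    simp only [mem_erase, mem_univ, and_true]
    constructor
    · rintro ⟨h1, h2, h3⟩
      exact ⟨⟨fun h => h2 h.symm, h1⟩, h3⟩
    · rintro ⟨⟨h1, h2⟩, h3⟩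
      exact ⟨h2, fun h => h1 h.symm, h3⟩
  have e5 : ∀ s ∈ univ.erase (0 : ZMod p), ∑ x ∈ (univ.erase (0 : ZMod p)).erase s,
        χ s⁻¹ * psi p (x⁻¹ + (s - x)⁻¹) =
      ∑ u ∈ (univ.erase (0 : ZMod p)).erase 1, χ s⁻¹ * psi p (s⁻¹ * (u * (1 - u))⁻¹) := by
    intro s hs
    have hs0 := (mem_erase.1 hs).1
    refine sum_nbij' (fun x => x * s⁻¹) (fun u => u * s) ?_ ?_ ?_ ?_ ?_
    · intro x hx
      rw [mem_erase, mem_erase] at hx ⊢
      refine ⟨?_, mul_ne_zero hx.2.1 (inv_ne_zero hs0), mem_univ _⟩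
      intro h
      apply hx.1
      field_simp at h
      exact h
    · intro u hu
      rw [mem_erase, mem_erase] at hu ⊢
      refine ⟨?_, mul_ne_zero hu.2.1 hs0, mem_univ _⟩
      intro h
      exact hu.1 (mul_right_cancel₀ hs0 (by rw [h, one_mul]))
    · intro x _
      field_simp
    · intro u _
      field_simp
    · intro x hx
      rw [mem_erase, mem_erase] at hx
      have hx0 : x ≠ 0 := hx.2.1
      have hxs : s - x ≠ 0 := sub_ne_zero.2 (Ne.symm hx.1)
      congr 2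
      have h1 : 1 - x * s⁻¹ = (s - x) * s⁻¹ := by field_simp
      rw [h1]
      field_simp
      ring
  rw [e3, e4, sum_congr rfl e5, sum_comm]
  have e6 : ∀ u ∈ (univ.erase (0 : ZMod p)).erase 1,
      ∑ s ∈ univ.erase (0 : ZMod p), χ s⁻¹ * psi p (s⁻¹ * (u * (1 - u))⁻¹) =
      χ u * χ (1 - u) * gaussSum χ (psi p) := by
    intro u hu
    rw [mem_erase, mem_erase] at hu
    have h1u : 1 - u ≠ 0 := sub_ne_zero.2 (Ne.symm hu.1)
    have hv : (u * (1 - u))⁻¹ ≠ 0 := inv_ne_zero (mul_ne_zero hu.2.1 h1u)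
    have h2 : ∑ s ∈ univ.erase (0 : ZMod p), χ s⁻¹ * psi p (s⁻¹ * (u * (1 - u))⁻¹) =
        ∑ s ∈ univ.erase (0 : ZMod p), χ s * psi p (s * (u * (1 - u))⁻¹) := by
      refine sum_nbij' (fun z => z⁻¹) (fun z => z⁻¹) ?_ ?_ ?_ ?_ ?_
      · intro z hz
        rw [mem_erase] at hz ⊢
        exact ⟨inv_ne_zero hz.1, mem_univ _⟩
      · intro z hz
        rw [mem_erase] at hz ⊢
        exact ⟨inv_ne_zero hz.1, mem_univ _⟩
      · intro z _
        exact inv_inv z
      · intro z _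
        exact inv_inv z
      · intro z _
        rfl
    have h3 := inner_sum χ hv
    rw [← add_sum_erase _ _ (mem_univ (0 : ZMod p)), MulChar.map_zero, zero_mul, zero_add,
      inv_inv, map_mul] at h3
    rw [h2, h3]
  rw [sum_congr rfl e6, ← sum_mul, mul_comm]
  congr 1
  unfold jacobiSum
  rw [← add_sum_erase _ _ (mem_univ (0 : ZMod p)), MulChar.map_zero, zero_mul, zero_add,
    ← add_sum_erase _ _ (mem_erase.2 ⟨one_ne_zero, mem_univ (1 : ZMod p)⟩), sub_self,
    MulChar.map_zero, mul_zero, zero_add]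

end Pool.Agent.H73.KS
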