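import Pool.Agent.H73.KS.Gauss
import Pool.Agent.H73.KS.AllX
import Pool.Graph.R_pool_sql_team_seeded_ab47071d.Results.MP_6ea630_nt.AlmostAllSigns

set_option autoImplicit false

/-!
# The first two Weyl functions of the Kloosterman angle are admissible
-/

namespace Pool.Agent.H73.KS

open Finset Pool.Agent.TH375.KL ComplexConjugate
open Pool.Agent.Results.MP_6ea630_nt.AlmostAllSigns (klz klz_eq)

section

variable {p : ℕ} [hp : Fact p.Prime]

theorem KK_swap (b c : ZMod p) : KK p b c = KK p c b := by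
  unfold KK Pool.Agent.Helper916.Kl
  refine sum_nbij' (fun z => z⁻¹) (fun z => z⁻¹) ?_ ?_ ?_ ?_ ?_
  · intro z hz
    rw [mem_erase] at hz ⊢
    exact ⟨inv_ne_zero hz.1, mem_univ _⟩
  · intro z hz
    rw [mem_erase] at hz ⊢
    exact ⟨inv_ne_zero hz.1, mem_univ _⟩
  · intro z _
    exact inv_inv z
  · intro z _
    exact inv_inv z
  · intro z _
    rw [inv_inv, add_comm]

theorem KK_zero_one : KK p 0 1 = -1 := by
  rw [KK_swap, KK_zero_right one_ne_zero]

theorem rk_zero_one : rk p 0 1 = -1 := by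
  unfold rk
  rw [KK_zero_one]
  simp

/-- Weil's bound -/
theorem weil (a : ZMod p) : |rk p a 1| ≤ 2 * Real.sqrt p := by
  have hp1 : (1 : ℝ) ≤ p := by exact_mod_cast hp.out.one_le
  have hs : 1 ≤ Real.sqrt p := Real.one_le_sqrt.2 hp1
  by_cases ha : a = 0
  · subst ha
    rw [rk_zero_one, abs_neg, abs_one]
    linarith
  · have h1 : |rk p a 1| = ‖KK p a 1‖ := by
      rw [← rk_eq, Complex.norm_real, Real.norm_eq_abs]
    rw [h1]
    by_cases h2 : p = 2
    · have h3 : ‖KK p a 1‖ ≤ 1 := by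
        unfold KK Pool.Agent.Helper916.Kl
        refine (norm_sum_le _ _).trans ?_
        have h4 : ∀ z ∈ univ.erase (0 : ZMod p), ‖(ZMod.stdAddChar (N := p)) (a * z + 1 * z⁻¹)‖ ≤ 1 := by
          intro z _
          rw [AddChar.norm_apply]
        refine (sum_le_sum h4).trans ?_
        rw [sum_const, card_erase_of_mem (mem_univ _), card_univ, ZMod.card, nsmul_eq_mul, mul_one,
          h2]
        norm_num
      linarith
    · have h3 := Pool.Agent.H498R2.Kl.kloosterman_le (F := ZMod p) (by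
        rw [ZMod.ringChar_zmod_n]
        exact h2) (prim (p := p)) ha (one_ne_zero (α := ZMod p))
      rw [ZMod.card] at h3
      have h4 : KK p a 1 = ∑ x : ZMod p, (if x = 0 then (0 : ℂ) else
          (ZMod.stdAddChar (N := p)) (a * x + 1 * x⁻¹)) := by
        unfold KK Pool.Agent.Helper916.Kl
        rw [← add_sum_erase univ (fun x : ZMod p => if x = 0 then (0 : ℂ) else
          (ZMod.stdAddChar (N := p)) (a * x + 1 * x⁻¹)) (mem_univ 0), if_pos rfl, zero_add]
        refine sum_congr rfl fun x hx => ?_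
        rw [if_neg (mem_erase.1 hx).1]
      rw [h4]
      exact h3

end

/-- the first Weyl function -/
noncomputable def W1 (p : ℕ) (a : ZMod p) : ℝ := klz p a / Real.sqrt p

/-- the second Weyl function -/
noncomputable def W2 (p : ℕ) (a : ZMod p) : ℝ := klz p a ^ 2 / p - 1

theorem W1_le {p : ℕ} [Fact p.Prime] (a : ZMod p) : |W1 p a| ≤ 2 := by
  have h := weil (p := p) a
  have hp0 : (0 : ℝ) < p := by exact_mod_cast (Fact.out : p.Prime).pos
  have hs : 0 < Real.sqrt p := Real.sqrt_pos.2 hp0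
  unfold W1
  rw [klz_eq, abs_div, abs_of_pos hs, div_le_iff₀ hs]
  exact h

theorem W2_eq {p : ℕ} [Fact p.Prime] (a : ZMod p) : W2 p a = W1 p a ^ 2 - 1 := by
  have hp0 : (0 : ℝ) ≤ p := Nat.cast_nonneg _
  unfold W2 W1
  rw [div_pow, Real.sq_sqrt hp0]

theorem W2_le {p : ℕ} [Fact p.Prime] (a : ZMod p) : |W2 p a| ≤ 3 := by
  have h := abs_le.1 (W1_le (p := p) a)
  rw [W2_eq, abs_le]
  constructor
  · nlinarith [sq_nonneg (W1 p a)]
  · nlinarith [h.1, h.2]

theorem hat_W1 {p : ℕ} [Fact p.Prime] (w : ℝ) (hw : |w| ≤ 1) (χ : DirichletCharacter ℂ p) :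
    ‖hat (fun a => ((w * W1 p a : ℝ) : ℂ)) χ‖ ≤ Real.sqrt p := by
  have hp0 : (0 : ℝ) < p := by exact_mod_cast (Fact.out : p.Prime).pos
  have hs : 0 < Real.sqrt p := Real.sqrt_pos.2 hp0
  have e1 : hat (fun a => ((w * W1 p a : ℝ) : ℂ)) χ =
      ((w / Real.sqrt p : ℝ) : ℂ) * ∑ a : ZMod p, χ a * KK p a 1 := by
    unfold hat W1
    rw [mul_sum]
    refine sum_congr rfl fun a _ => ?_
    simp only [klz_eq]
    rw [← rk_eq]
    push_cast
    ring
  rw [e1, norm_mul, Complex.norm_real, Real.norm_eq_abs, abs_div, abs_of_pos hs]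
  calc |w| / Real.sqrt p * ‖∑ a : ZMod p, χ a * KK p a 1‖ ≤ 1 / Real.sqrt p * p := by
        have := norm_hat_one χ
        gcongr
    _ = Real.sqrt p := by
        rw [div_mul_eq_mul_div, one_mul, Real.div_sqrt]

theorem hat_W2 {p : ℕ} [hp : Fact p.Prime] (w : ℝ) (hw : |w| ≤ 1) (χ : DirichletCharacter ℂ p) :
    ‖hat (fun a => ((w * W2 p a : ℝ) : ℂ)) χ‖ ≤ Real.sqrt p := by
  have hp0 : (0 : ℝ) < p := by exact_mod_cast (Fact.out : p.Prime).pos
  have hp1 : (1 : ℝ) ≤ p := by exact_mod_cast hp.out.one_le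
  have hs : 1 ≤ Real.sqrt p := Real.one_le_sqrt.2 hp1
  have e1 : hat (fun a => ((w * W2 p a : ℝ) : ℂ)) χ =
      (w : ℂ) * (((p : ℝ)⁻¹ : ℝ) * (∑ a : ZMod p, χ a * KK p a 1 ^ 2) - ∑ a : ZMod p, χ a) := by
    unfold hat W2
    rw [mul_sum, ← sum_sub_distrib, mul_sum]
    refine sum_congr rfl fun a _ => ?_
    simp only [klz_eq]
    rw [← rk_eq]
    push_cast
    ring
  rw [e1, norm_mul, Complex.norm_real, Real.norm_eq_abs]
  have h2 : ‖(((p : ℝ)⁻¹ : ℝ) : ℂ) * (∑ a : ZMod p, χ a * KK p a 1 ^ 2) - ∑ a : ZMod p, χ a‖ ≤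
      Real.sqrt p := by
    by_cases hχ : χ = 1
    · subst hχ
      have h3 : ∑ a : ZMod p, (1 : DirichletCharacter ℂ p) a = (p : ℂ) - 1 := by
        rw [MulChar.sum_one_eq_card_units, ZMod.card_units_eq_totient,
          Nat.totient_prime hp.out, Nat.cast_sub hp.out.one_le]
        simp
      have h4 : ∑ a : ZMod p, (1 : DirichletCharacter ℂ p) a * KK p a 1 ^ 2 =
          (p : ℂ) * ((p : ℂ) - 1) - 1 := by
        have h5 := m2 (p := p)
        have h6 : ∑ a : ZMod p, (1 : DirichletCharacter ℂ p) a * KK p a 1 ^ 2 =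
            ∑ a : ZMod p, KK p a 1 ^ 2 - 1 := by
          rw [← add_sum_erase univ (fun a : ZMod p => (1 : DirichletCharacter ℂ p) a * KK p a 1 ^ 2)
            (mem_univ 0), ← add_sum_erase univ (fun a : ZMod p => KK p a 1 ^ 2) (mem_univ 0),
            MulChar.map_zero, zero_mul, zero_add, KK_zero_one]
          have : ∀ a ∈ univ.erase (0 : ZMod p),
              (1 : DirichletCharacter ℂ p) a * KK p a 1 ^ 2 = KK p a 1 ^ 2 := by
            intro a ha
            rw [MulChar.one_apply (isUnit_iff_ne_zero.2 (mem_erase.1 ha).1), one_mul]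
          rw [sum_congr rfl this]
          ring
        rw [h6]
        have h7 : ∑ a : ZMod p, KK p a 1 ^ 2 = ((∑ a : ZMod p, rk p a 1 ^ 2 : ℝ) : ℂ) := by
          push_cast
          exact sum_congr rfl fun a _ => by rw [rk_eq]
        rw [h7, h5]
        push_cast
        ring
      rw [h3, h4]
      have hpc : (p : ℂ) ≠ 0 := by exact_mod_cast hp0.ne'
      have h5 : (((p : ℝ)⁻¹ : ℝ) : ℂ) * ((p : ℂ) * ((p : ℂ) - 1) - 1) - ((p : ℂ) - 1) =
          ((-(p : ℝ)⁻¹ : ℝ) : ℂ) := by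
        push_cast
        field_simp
        ring
      rw [h5, Complex.norm_real, Real.norm_eq_abs, abs_neg, abs_of_pos (by positivity)]
      exact (inv_le_one_of_one_le₀ hp1).trans hs
    · rw [MulChar.sum_eq_zero_of_ne_one hχ, sub_zero, hat_two hχ, norm_mul, norm_mul, norm_pow,
        norm_gauss_sq hχ, Complex.norm_real, Real.norm_eq_abs, abs_of_pos (by positivity)]
      calc (p : ℝ)⁻¹ * (p * ‖jacobiSum χ χ‖) = ‖jacobiSum χ χ‖ := by field_simp
        _ ≤ Real.sqrt p := norm_jacobi hχ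
  calc |w| * ‖(((p : ℝ)⁻¹ : ℝ) : ℂ) * (∑ a : ZMod p, χ a * KK p a 1 ^ 2) - ∑ a : ZMod p, χ a‖ ≤
        1 * Real.sqrt p := mul_le_mul hw h2 (norm_nonneg _) (by norm_num)
    _ = _ := one_mul _

theorem adm_W1 {w : ℕ → ℝ} (hw : ∀ p, |w p| ≤ 1) : Adm 3 (fun p a => w p * W1 p a) := by
  refine ⟨by norm_num, fun p hp => ⟨fun a => ?_, fun χ => ?_⟩⟩
  · rw [abs_mul]
    calc |w p| * |W1 p a| ≤ 1 * 2 := mul_le_mul (hw p) (W1_le a) (abs_nonneg _) (by norm_num)
      _ ≤ 3 := by norm_num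
  · have := hat_W1 (p := p) (w p) (hw p) χ
    have h0 := Real.sqrt_nonneg (p : ℝ)
    linarith

theorem adm_W2 {w : ℕ → ℝ} (hw : ∀ p, |w p| ≤ 1) : Adm 3 (fun p a => w p * W2 p a) := by
  refine ⟨by norm_num, fun p hp => ⟨fun a => ?_, fun χ => ?_⟩⟩
  · rw [abs_mul]
    calc |w p| * |W2 p a| ≤ 1 * 3 := mul_le_mul (hw p) (W2_le a) (abs_nonneg _) (by norm_num)
      _ = 3 := by norm_num
  · have := hat_W2 (p := p) (w p) (hw p) χ
    have h0 := Real.sqrt_nonneg (p : ℝ)
    linarith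

/-- the minorant of the indicator function of large values with a given sign -/
theorem minorant {t σ η : ℝ} (ht : |t| ≤ 2) (hσ : σ = 1 ∨ σ = -1) (hη : 0 ≤ η) :
    (1 / 8 - η) + σ / 4 * t + 1 / 8 * (t ^ 2 - 1) ≤ if 2 * η < σ * t then 1 else 0 := by
  have h := abs_le.1 ht
  split_ifs with h1
  · rcases hσ with rfl | rfl <;> nlinarith [h.1, h.2]
  · push Not at h1
    rcases hσ with rfl | rfl
    · rw [one_mul] at h1
      nlinarith [h.1, h.2]
    · have h2 : -t ≤ 2 * η := by linarith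
      nlinarith [h.1, h.2]

end Pool.Agent.H73.KS
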