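import Mathlib

set_option autoImplicit false

/-!
# Correlations of functions with small multiplicative Fourier coefficients along `u b ^ k c ^ l`
-/

namespace Pool.Agent.H73.KS

open Finset

section one

variable {p : ℕ} [hp : Fact p.Prime]

/-- the multiplicative Fourier coefficients -/
noncomputable def hat (f : ZMod p → ℂ) (χ : DirichletCharacter ℂ p) : ℂ := ∑ y : ZMod p, χ y * f y

theorem inversion (f : ZMod p → ℂ) {a : ZMod p} (ha : a ≠ 0) :
    ((p : ℂ) - 1) * f a = ∑ χ : DirichletCharacter ℂ p, χ a⁻¹ * hat f χ := by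
  unfold hat
  simp_rw [mul_sum]
  rw [sum_comm]
  have h1 : ∀ y : ZMod p, ∑ χ : DirichletCharacter ℂ p, χ a⁻¹ * (χ y * f y) =
      if a = y then ((p : ℂ) - 1) * f y else 0 := by
    intro y
    have h2 := DirichletCharacter.sum_char_inv_mul_char_eq ℂ (isUnit_iff_ne_zero.2 ha) y
    simp_rw [← mul_assoc]
    rw [← sum_mul, h2]
    rw [Nat.totient_prime hp.out, Nat.cast_sub hp.out.one_le, Nat.cast_one]
    split_ifs <;> simp
  simp_rw [h1]
  rw [sum_ite_eq]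
  simp

theorem star_char (χ : DirichletCharacter ℂ p) (a : ZMod p) : star (χ a) = χ a⁻¹ := by
  have h : star (χ a) = χ⁻¹ a := MulChar.star_apply' χ a
  rw [h, MulChar.inv_apply']

theorem char_pow (χ : DirichletCharacter ℂ p) {a : ZMod p} (ha : a ≠ 0) :
    χ a ^ (p - 1) = 1 := by
  rw [← map_pow, ZMod.pow_card_sub_one_eq_one ha, map_one]

end one

section two

variable {p q : ℕ} [hp : Fact p.Prime] [hq : Fact q.Prime]

/-- the pairs of characters which are inverse to each other on the group generated by `b` and `c` -/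
noncomputable def VV (b c : ℤ) : Finset (DirichletCharacter ℂ p × DirichletCharacter ℂ q) :=
  open scoped Classical in
  univ.filter fun v => v.1 ((b : ZMod p)⁻¹) * v.2 ((b : ZMod q)⁻¹) = 1 ∧
    v.1 ((c : ZMod p)⁻¹) * v.2 ((c : ZMod q)⁻¹) = 1

theorem geom {z : ℂ} {M : ℕ} (hz : z ^ M = 1) (h1 : z ≠ 1) : ∑ k ∈ range M, z ^ k = 0 := by
  rw [geom_sum_eq h1, hz, sub_self, zero_div]

/-- the sum over complete periods -/
theorem pair_sum (f : ZMod p → ℂ) (g : ZMod q → ℂ) (b c u : ℤ)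
    (hb : (b : ZMod p) ≠ 0) (hb' : (b : ZMod q) ≠ 0) (hc : (c : ZMod p) ≠ 0)
    (hc' : (c : ZMod q) ≠ 0) (hu : (u : ZMod p) ≠ 0) (hu' : (u : ZMod q) ≠ 0) {M : ℕ}
    (hM : (p - 1) * (q - 1) ∣ M) {A B : ℝ} (hA : 0 ≤ A) (hA' : ∀ χ, ‖hat f χ‖ ≤ A)
    (hB : 0 ≤ B) (hB' : ∀ χ, ‖hat g χ‖ ≤ B) :
    ((p : ℝ) - 1) * ((q : ℝ) - 1) * ‖∑ k ∈ range M, ∑ l ∈ range M,
      f ((u * b ^ k * c ^ l : ℤ) : ZMod p) * g ((u * b ^ k * c ^ l : ℤ) : ZMod q)‖ ≤
      A * B * (M : ℝ) ^ 2 * (VV (p := p) (q := q) b c).card := by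
  classical
  set z : DirichletCharacter ℂ p × DirichletCharacter ℂ q → ℂ :=
    fun v => v.1 ((b : ZMod p)⁻¹) * v.2 ((b : ZMod q)⁻¹) with hz
  set t : DirichletCharacter ℂ p × DirichletCharacter ℂ q → ℂ :=
    fun v => v.1 ((c : ZMod p)⁻¹) * v.2 ((c : ZMod q)⁻¹) with ht
  have e1 : ((p : ℂ) - 1) * ((q : ℂ) - 1) * ∑ k ∈ range M, ∑ l ∈ range M,
      f ((u * b ^ k * c ^ l : ℤ) : ZMod p) * g ((u * b ^ k * c ^ l : ℤ) : ZMod q) =
      ∑ v : DirichletCharacter ℂ p × DirichletCharacter ℂ q,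
        hat f v.1 * hat g v.2 * (v.1 ((u : ZMod p)⁻¹) * v.2 ((u : ZMod q)⁻¹)) *
          ((∑ k ∈ range M, z v ^ k) * ∑ l ∈ range M, t v ^ l) := by
    rw [mul_sum]
    have e2 : ∀ k ∈ range M, ((p : ℂ) - 1) * ((q : ℂ) - 1) * ∑ l ∈ range M,
        f ((u * b ^ k * c ^ l : ℤ) : ZMod p) * g ((u * b ^ k * c ^ l : ℤ) : ZMod q) =
        ∑ v : DirichletCharacter ℂ p × DirichletCharacter ℂ q, ∑ l ∈ range M,
          hat f v.1 * hat g v.2 * (v.1 ((u : ZMod p)⁻¹) * v.2 ((u : ZMod q)⁻¹)) *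
          (z v ^ k * t v ^ l) := by
      intro k _
      rw [mul_sum, sum_comm]
      refine sum_congr rfl fun l _ => ?_
      have h1 : ((u * b ^ k * c ^ l : ℤ) : ZMod p) ≠ 0 := by
        push_cast
        exact mul_ne_zero (mul_ne_zero hu (pow_ne_zero _ hb)) (pow_ne_zero _ hc)
      have h2 : ((u * b ^ k * c ^ l : ℤ) : ZMod q) ≠ 0 := by
        push_cast
        exact mul_ne_zero (mul_ne_zero hu' (pow_ne_zero _ hb')) (pow_ne_zero _ hc')
      rw [mul_mul_mul_comm, inversion f h1, inversion g h2, sum_mul_sum,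
        ← univ_product_univ, sum_product]
      refine sum_congr rfl fun χ _ => sum_congr rfl fun ψ _ => ?_
      rw [hz, ht]
      simp only
      push_cast
      rw [mul_inv, mul_inv, mul_inv, mul_inv, map_mul, map_mul, map_mul, map_mul, ← inv_pow,
        ← inv_pow, ← inv_pow, ← inv_pow, map_pow, map_pow, map_pow, map_pow, mul_pow, mul_pow]
      ring
    rw [sum_congr rfl e2, sum_comm]
    refine sum_congr rfl fun v _ => ?_
    rw [sum_mul_sum, mul_sum]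
    refine sum_congr rfl fun k _ => ?_
    rw [mul_sum]
  have hzM : ∀ v, z v ^ M = 1 := by
    intro v
    obtain ⟨m, rfl⟩ := hM
    rw [hz]
    simp only
    rw [mul_pow]
    have h1 : v.1 ((b : ZMod p)⁻¹) ^ ((p - 1) * (q - 1) * m) = 1 := by
      rw [mul_assoc, pow_mul, char_pow v.1 (inv_ne_zero hb), one_pow]
    have h2 : v.2 ((b : ZMod q)⁻¹) ^ ((p - 1) * (q - 1) * m) = 1 := by
      rw [mul_comm (p - 1), mul_assoc, pow_mul, char_pow v.2 (inv_ne_zero hb'), one_pow]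
    rw [h1, h2, one_mul]
  have htM : ∀ v, t v ^ M = 1 := by
    intro v
    obtain ⟨m, rfl⟩ := hM
    rw [ht]
    simp only
    rw [mul_pow]
    have h1 : v.1 ((c : ZMod p)⁻¹) ^ ((p - 1) * (q - 1) * m) = 1 := by
      rw [mul_assoc, pow_mul, char_pow v.1 (inv_ne_zero hc), one_pow]
    have h2 : v.2 ((c : ZMod q)⁻¹) ^ ((p - 1) * (q - 1) * m) = 1 := by
      rw [mul_comm (p - 1), mul_assoc, pow_mul, char_pow v.2 (inv_ne_zero hc'), one_pow]
    rw [h1, h2, one_mul]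
  have hz1 : ∀ v, ‖z v‖ ≤ 1 := by
    intro v
    rw [hz]
    simp only [norm_mul]
    exact mul_le_one₀ (DirichletCharacter.norm_le_one _ _) (norm_nonneg _)
      (DirichletCharacter.norm_le_one _ _)
  have ht1 : ∀ v, ‖t v‖ ≤ 1 := by
    intro v
    rw [ht]
    simp only [norm_mul]
    exact mul_le_one₀ (DirichletCharacter.norm_le_one _ _) (norm_nonneg _)
      (DirichletCharacter.norm_le_one _ _)
  have hgz : ∀ w : ℂ, ‖w‖ ≤ 1 → ‖∑ k ∈ range M, w ^ k‖ ≤ M := by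
    intro w hw
    refine (norm_sum_le _ _).trans ?_
    have : ∀ k ∈ range M, ‖w ^ k‖ ≤ 1 := fun k _ => by
      rw [norm_pow]
      exact pow_le_one₀ (norm_nonneg _) hw
    refine (sum_le_sum this).trans ?_
    simp
  have e3 : ∀ v : DirichletCharacter ℂ p × DirichletCharacter ℂ q,
      ‖hat f v.1 * hat g v.2 * (v.1 ((u : ZMod p)⁻¹) * v.2 ((u : ZMod q)⁻¹)) *
          ((∑ k ∈ range M, z v ^ k) * ∑ l ∈ range M, t v ^ l)‖ ≤
        if v ∈ VV (p := p) (q := q) b c then A * B * (M : ℝ) ^ 2 else 0 := by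
    intro v
    split_ifs with hv
    · rw [norm_mul, norm_mul, norm_mul, norm_mul, norm_mul]
      have h1 : ‖v.1 ((u : ZMod p)⁻¹)‖ * ‖v.2 ((u : ZMod q)⁻¹)‖ ≤ 1 :=
        mul_le_one₀ (DirichletCharacter.norm_le_one _ _) (norm_nonneg _)
          (DirichletCharacter.norm_le_one _ _)
      have h2 : ‖hat f v.1‖ * ‖hat g v.2‖ ≤ A * B :=
        mul_le_mul (hA' _) (hB' _) (norm_nonneg _) hA
      have h3 : ‖∑ k ∈ range M, z v ^ k‖ * ‖∑ l ∈ range M, t v ^ l‖ ≤ (M : ℝ) ^ 2 := by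
        rw [sq]
        exact mul_le_mul (hgz _ (hz1 v)) (hgz _ (ht1 v)) (norm_nonneg _) (Nat.cast_nonneg _)
      have h4 : ‖hat f v.1‖ * ‖hat g v.2‖ * (‖v.1 ((u : ZMod p)⁻¹)‖ * ‖v.2 ((u : ZMod q)⁻¹)‖) ≤
          A * B * 1 := mul_le_mul h2 h1 (by positivity) (by positivity)
      rw [mul_one] at h4
      exact mul_le_mul h4 h3 (by positivity) (by positivity)
    · have h1 : (∑ k ∈ range M, z v ^ k) * ∑ l ∈ range M, t v ^ l = 0 := by
        by_cases h2 : z v = 1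
        · have h3 : t v ≠ 1 := by
            intro h3
            exact hv (by
              unfold VV
              rw [mem_filter]
              exact ⟨mem_univ _, h2, h3⟩)
          rw [geom (htM v) h3, mul_zero]
        · rw [geom (hzM v) h2, zero_mul]
      rw [h1, mul_zero, norm_zero]
  have e4 := congrArg norm e1
  have hp1 : (0 : ℝ) ≤ (p : ℝ) - 1 := by
    have : (1 : ℝ) ≤ p := by exact_mod_cast hp.out.one_le
    linarith
  have hq1 : (0 : ℝ) ≤ (q : ℝ) - 1 := by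
    have : (1 : ℝ) ≤ q := by exact_mod_cast hq.out.one_le
    linarith
  have e5 : ‖((p : ℂ) - 1) * ((q : ℂ) - 1)‖ = ((p : ℝ) - 1) * ((q : ℝ) - 1) := by
    have : ((p : ℂ) - 1) * ((q : ℂ) - 1) = ((((p : ℝ) - 1) * ((q : ℝ) - 1) : ℝ) : ℂ) := by
      push_cast
      ring
    rw [this, Complex.norm_real, Real.norm_of_nonneg (mul_nonneg hp1 hq1)]
  rw [norm_mul, e5] at e4
  rw [e4]
  refine (norm_sum_le _ _).trans ((sum_le_sum fun v _ => e3 v).trans ?_)
  rw [sum_ite_mem, univ_inter, sum_const, nsmul_eq_mul]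
  linarith

/-- Parseval's identity for characters of a product of two groups -/
theorem parseval (S : Finset (ZMod p × ZMod q)) (hS : ∀ s ∈ S, s.1 ≠ 0 ∧ s.2 ≠ 0) :
    ∑ v : DirichletCharacter ℂ p × DirichletCharacter ℂ q, ‖∑ s ∈ S, v.1 s.1 * v.2 s.2‖ ^ 2 =
      ((p : ℝ) - 1) * ((q : ℝ) - 1) * S.card := by
  classical
  have e1 : ∀ v : DirichletCharacter ℂ p × DirichletCharacter ℂ q,
      ((‖∑ s ∈ S, v.1 s.1 * v.2 s.2‖ ^ 2 : ℝ) : ℂ) =
      ∑ s ∈ S, ∑ t ∈ S, (v.1 s.1⁻¹ * v.1 t.1) * (v.2 s.2⁻¹ * v.2 t.2) := by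
    intro v
    rw [← Complex.normSq_eq_norm_sq, ← Complex.mul_conj, mul_comm, map_sum, sum_mul_sum]
    refine sum_congr rfl fun s _ => sum_congr rfl fun t _ => ?_
    rw [map_mul, starRingEnd_apply, starRingEnd_apply, star_char, star_char]
    ring
  have e2 : ((∑ v : DirichletCharacter ℂ p × DirichletCharacter ℂ q,
      ‖∑ s ∈ S, v.1 s.1 * v.2 s.2‖ ^ 2 : ℝ) : ℂ) =
      ((((p : ℝ) - 1) * ((q : ℝ) - 1) * S.card : ℝ) : ℂ) := by
    push_cast
    have e1' : ∀ v : DirichletCharacter ℂ p × DirichletCharacter ℂ q,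
      ((‖∑ s ∈ S, v.1 s.1 * v.2 s.2‖ : ℝ) : ℂ) ^ 2 =
      ∑ s ∈ S, ∑ t ∈ S, (v.1 s.1⁻¹ * v.1 t.1) * (v.2 s.2⁻¹ * v.2 t.2) := by
      intro v
      rw [← e1 v]
      push_cast
      rfl
    rw [sum_congr rfl fun v _ => e1' v, sum_comm]
    have e3 : ∀ s ∈ S, ∑ v : DirichletCharacter ℂ p × DirichletCharacter ℂ q, ∑ t ∈ S,
        (v.1 s.1⁻¹ * v.1 t.1) * (v.2 s.2⁻¹ * v.2 t.2) = ((p : ℂ) - 1) * ((q : ℂ) - 1) := by
      intro s hs
      rw [sum_comm]
      have e4 : ∀ t ∈ S, ∑ v : DirichletCharacter ℂ p × DirichletCharacter ℂ q,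
          (v.1 s.1⁻¹ * v.1 t.1) * (v.2 s.2⁻¹ * v.2 t.2) =
          if s = t then ((p : ℂ) - 1) * ((q : ℂ) - 1) else 0 := by
        intro t _
        rw [← univ_product_univ, sum_product]
        simp_rw [← mul_sum]
        rw [← sum_mul, DirichletCharacter.sum_char_inv_mul_char_eq ℂ
          (isUnit_iff_ne_zero.2 (hS s hs).1), DirichletCharacter.sum_char_inv_mul_char_eq ℂ
          (isUnit_iff_ne_zero.2 (hS s hs).2), Nat.totient_prime hp.out,
          Nat.totient_prime hq.out, Nat.cast_sub hp.out.one_le, Nat.cast_sub hq.out.one_le]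
        by_cases h1 : s.1 = t.1
        · by_cases h2 : s.2 = t.2
          · rw [if_pos h1, if_pos h2, if_pos (Prod.ext h1 h2)]
            simp
          · rw [if_neg h2, if_neg (fun h : s = t => h2 (congrArg Prod.snd h)), mul_zero]
        · rw [if_neg h1, if_neg (fun h : s = t => h1 (congrArg Prod.fst h)), zero_mul]
      rw [sum_congr rfl e4, sum_ite_eq, if_pos hs]
    rw [sum_congr rfl e3, sum_const, nsmul_eq_mul]
    ring
  exact_mod_cast e2

/-- the number of the pairs of characters which are trivial on a set -/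
theorem card_VV_le (b c : ℤ) (S : Finset (ZMod p × ZMod q)) (hS : ∀ s ∈ S, s.1 ≠ 0 ∧ s.2 ≠ 0)
    (hV : ∀ v ∈ VV (p := p) (q := q) b c, ∀ s ∈ S, v.1 s.1 * v.2 s.2 = 1) (hne : S.Nonempty) :
    ((VV (p := p) (q := q) b c).card : ℝ) * S.card ≤ ((p : ℝ) - 1) * ((q : ℝ) - 1) := by
  classical
  have h1 : ∑ v ∈ VV (p := p) (q := q) b c, (S.card : ℝ) ^ 2 ≤
      ∑ v : DirichletCharacter ℂ p × DirichletCharacter ℂ q, ‖∑ s ∈ S, v.1 s.1 * v.2 s.2‖ ^ 2 := by
    refine (sum_le_sum (f := fun _ => (S.card : ℝ) ^ 2)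
      (g := fun v => ‖∑ s ∈ S, v.1 s.1 * v.2 s.2‖ ^ 2) fun v hv => ?_).trans ?_
    · rw [sum_congr rfl fun s hs => hV v hv s hs]
      simp
    · exact sum_le_sum_of_subset_of_nonneg (subset_univ _) fun _ _ _ => by positivity
  rw [parseval S hS, sum_const, nsmul_eq_mul] at h1
  have hc : (0 : ℝ) < S.card := by exact_mod_cast hne.card_pos
  have h2 : (((VV (p := p) (q := q) b c).card : ℝ) * S.card) * S.card ≤
      (((p : ℝ) - 1) * ((q : ℝ) - 1)) * S.card := by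
    calc _ = ((VV (p := p) (q := q) b c).card : ℝ) * (S.card : ℝ) ^ 2 := by ring
      _ ≤ _ := h1
  exact le_of_mul_le_mul_right h2 hc

end two

end Pool.Agent.H73.KS
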