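import Pool.Agent.H73.KS.Pair

set_option autoImplicit false

/-!
# Good primes and the correlation bound
-/

namespace Pool.Agent.H73.KS

open Finset

/-- the exponents -/
def Ex (s : ℕ) : Finset (ℕ × ℕ) := range (s + 1) ×ˢ range (s + 1)

theorem card_Ex (s : ℕ) : (Ex s).card = (s + 1) ^ 2 := by
  unfold Ex
  rw [card_product, card_range, sq]

/-- the elements `b ^ i c ^ j` are distinct modulo `p` for `i, j ≤ s` -/
def Good (b c : ℤ) (s p : ℕ) : Prop :=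
  Set.InjOn (fun e : ℕ × ℕ => ((b ^ e.1 * c ^ e.2 : ℤ) : ZMod p)) (Ex s : Set (ℕ × ℕ))

section two

variable {p q : ℕ} [hp : Fact p.Prime] [hq : Fact q.Prime]

/-- few elements of a field have the same power -/
theorem fiber_le (y : ZMod p) {m : ℕ} (T : Finset (ZMod p)) (hT : ∀ x ∈ T, x ≠ 0)
    (hm : 0 < Nat.gcd m (p - 1)) :
    (T.filter fun x => x ^ m = y).card ≤ Nat.gcd m (p - 1) := by
  classical
  rcases (T.filter fun x => x ^ m = y).eq_empty_or_nonempty with h | ⟨x0, hx0⟩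
  · rw [h, card_empty]
    exact Nat.zero_le _
  · rw [mem_filter] at hx0
    have hx00 := hT x0 hx0.1
    have h1 : ((T.filter fun x => x ^ m = y).image fun x => x * x0⁻¹) ⊆
        (Polynomial.nthRoots (Nat.gcd m (p - 1)) (1 : ZMod p)).toFinset := by
      intro z hz
      rw [mem_image] at hz
      obtain ⟨x, hx, rfl⟩ := hz
      rw [mem_filter] at hx
      rw [Multiset.mem_toFinset, Polynomial.mem_nthRoots hm]
      have hxx := hT x hx.1
      have h2 : (x * x0⁻¹) ^ m = 1 := by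
        rw [mul_pow, inv_pow, hx.2, hx0.2]
        exact mul_inv_cancel₀ (by rw [← hx0.2]; exact pow_ne_zero _ hx00)
      have h3 : (x * x0⁻¹) ^ (p - 1) = 1 :=
        ZMod.pow_card_sub_one_eq_one (mul_ne_zero hxx (inv_ne_zero hx00))
      exact pow_gcd_eq_one.2 ⟨h2, h3⟩ |>.trans rfl
    have h2 := card_le_card h1
    rw [card_image_of_injective _ (mul_left_injective₀ (inv_ne_zero hx00))] at h2
    exact h2.trans ((Multiset.toFinset_card_le _).trans (Polynomial.card_nthRoots _ _))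

theorem val_inv {χ : DirichletCharacter ℂ p} {ψ : DirichletCharacter ℂ q} {x : ZMod p}
    {y : ZMod q} (hx : x ≠ 0) (hy : y ≠ 0) (h : χ x⁻¹ * ψ y⁻¹ = 1) : χ x * ψ y = 1 := by
  have h1 : χ x * χ x⁻¹ = 1 := by rw [← map_mul, mul_inv_cancel₀ hx, map_one]
  have h2 : ψ y * ψ y⁻¹ = 1 := by rw [← map_mul, mul_inv_cancel₀ hy, map_one]
  calc χ x * ψ y = χ x * ψ y * (χ x⁻¹ * ψ y⁻¹) := by rw [h, mul_one]
    _ = (χ x * χ x⁻¹) * (ψ y * ψ y⁻¹) := by ring
    _ = 1 := by rw [h1, h2, one_mul]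

/-- a large set on which the characters of `VV` are trivial -/
theorem exists_set (b c : ℤ) (s : ℕ) (hb : (b : ZMod p) ≠ 0) (hb' : (b : ZMod q) ≠ 0)
    (hc : (c : ZMod p) ≠ 0) (hc' : (c : ZMod q) ≠ 0) (hG : Good b c s p) (hG' : Good b c s q) :
    ∃ S : Finset (ZMod p × ZMod q), (∀ t ∈ S, t.1 ≠ 0 ∧ t.2 ≠ 0) ∧
      (∀ v ∈ VV (p := p) (q := q) b c, ∀ t ∈ S, v.1 t.1 * v.2 t.2 = 1) ∧ S.Nonempty ∧
      (s + 1) ^ 4 ≤ Nat.gcd (q - 1) (p - 1) * S.card := by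
  classical
  set h : ℕ × ℕ → ZMod p := fun e => ((b ^ e.1 * c ^ e.2 : ℤ) : ZMod p) with hh
  set h' : ℕ × ℕ → ZMod q := fun e => ((b ^ e.1 * c ^ e.2 : ℤ) : ZMod q) with hh'
  have h0 : ∀ e, h e ≠ 0 := by
    intro e
    rw [hh]
    push_cast
    exact mul_ne_zero (pow_ne_zero _ hb) (pow_ne_zero _ hc)
  have h0' : ∀ e, h' e ≠ 0 := by
    intro e
    rw [hh']
    push_cast
    exact mul_ne_zero (pow_ne_zero _ hb') (pow_ne_zero _ hc')
  set P : Finset (ZMod p) := (Ex s).image h with hP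
  have hPc : P.card = (s + 1) ^ 2 := by
    rw [hP, card_image_of_injOn hG, card_Ex]
  have hP0 : ∀ x ∈ P, x ≠ 0 := by
    intro x hx
    rw [hP, mem_image] at hx
    obtain ⟨e, _, rfl⟩ := hx
    exact h0 e
  set T : Finset (ZMod p) := P.image fun x => x ^ (q - 1) with hT
  have hg : 0 < Nat.gcd (q - 1) (p - 1) := by
    apply Nat.gcd_pos_of_pos_left
    have := hq.out.two_le
    omega
  have hTc : (s + 1) ^ 2 ≤ Nat.gcd (q - 1) (p - 1) * T.card := by
    rw [← hPc]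
    exact card_le_mul_card_image _ _ fun y _ => fiber_le y P hP0 hg
  set S : Finset (ZMod p × ZMod q) := ((Ex s) ×ˢ T).image fun e => (h e.1 * e.2, h' e.1) with hS
  have hT0 : ∀ x ∈ T, x ≠ 0 := by
    intro x hx
    rw [hT, mem_image] at hx
    obtain ⟨y, hy, rfl⟩ := hx
    exact pow_ne_zero _ (hP0 y hy)
  have hSc : S.card = (s + 1) ^ 2 * T.card := by
    rw [hS, card_image_of_injOn, card_product, card_Ex]
    rintro ⟨e, x⟩ he ⟨e', x'⟩ he' heq
    rw [mem_coe, mem_product] at he he'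
    simp only [Prod.mk.injEq] at heq
    have h1 : e = e' := hG' (mem_coe.2 he.1) (mem_coe.2 he'.1) heq.2
    subst h1
    rw [Prod.mk.injEq]
    exact ⟨rfl, mul_left_cancel₀ (h0 e) heq.1⟩
  refine ⟨S, ?_, ?_, ?_, ?_⟩
  · intro t ht
    rw [hS, mem_image] at ht
    obtain ⟨e, he, rfl⟩ := ht
    rw [mem_product] at he
    exact ⟨mul_ne_zero (h0 _) (hT0 _ he.2), h0' _⟩
  · intro v hv t ht
    rw [hS, mem_image] at ht
    obtain ⟨e, he, rfl⟩ := ht
    rw [mem_product] at he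
    have he2 := he.2
    rw [hT, mem_image] at he2
    obtain ⟨y, hy, hye⟩ := he2
    rw [hP, mem_image] at hy
    obtain ⟨e', _, rfl⟩ := hy
    unfold VV at hv
    rw [mem_filter] at hv
    have vb := val_inv hb hb' hv.2.1
    have vc := val_inv hc hc' hv.2.2
    have key : ∀ e : ℕ × ℕ, v.1 (h e) * v.2 (h' e) = 1 := by
      intro e
      rw [hh, hh']
      simp only
      push_cast
      rw [map_mul, map_mul, map_pow, map_pow, map_pow, map_pow]
      calc v.1 (b : ZMod p) ^ e.1 * v.1 (c : ZMod p) ^ e.2 *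
            (v.2 (b : ZMod q) ^ e.1 * v.2 (c : ZMod q) ^ e.2) =
          (v.1 (b : ZMod p) * v.2 (b : ZMod q)) ^ e.1 *
            (v.1 (c : ZMod p) * v.2 (c : ZMod q)) ^ e.2 := by ring
        _ = 1 := by rw [vb, vc, one_pow, one_pow, one_mul]
    simp only
    rw [map_mul, ← hye, map_pow]
    have h1 : v.1 (h e') ^ (q - 1) = 1 := by
      have h2 := key e'
      have h3 : (v.1 (h e') * v.2 (h' e')) ^ (q - 1) = 1 := by rw [h2, one_pow]
      rw [mul_pow, char_pow v.2 (h0' e'), mul_one] at h3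
      exact h3
    rw [h1, mul_one]
    exact key e.1
  · rw [← card_pos, hSc]
    have h1 : 0 < (s + 1) ^ 2 := by positivity
    have h2 : 0 < T.card := by
      by_contra h3
      rw [not_lt, Nat.le_zero] at h3
      rw [h3, mul_zero] at hTc
      omega
    exact Nat.mul_pos h1 h2
  · rw [hSc]
    calc (s + 1) ^ 4 = (s + 1) ^ 2 * (s + 1) ^ 2 := by ring
      _ ≤ (s + 1) ^ 2 * (Nat.gcd (q - 1) (p - 1) * T.card) := Nat.mul_le_mul_left _ hTc
      _ = _ := by ring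

/-- the correlation over complete periods -/
theorem pair_le (f : ZMod p → ℂ) (g : ZMod q → ℂ) (b c u : ℤ) (s : ℕ)
    (hb : (b : ZMod p) ≠ 0) (hb' : (b : ZMod q) ≠ 0) (hc : (c : ZMod p) ≠ 0)
    (hc' : (c : ZMod q) ≠ 0) (hu : (u : ZMod p) ≠ 0) (hu' : (u : ZMod q) ≠ 0)
    (hG : Good b c s p) (hG' : Good b c s q) {M : ℕ}
    (hM : (p - 1) * (q - 1) ∣ M) {A B : ℝ} (hA : 0 ≤ A) (hA' : ∀ χ, ‖hat f χ‖ ≤ A)
    (hB : 0 ≤ B) (hB' : ∀ χ, ‖hat g χ‖ ≤ B) :
    ((s : ℝ) + 1) ^ 4 * ‖∑ k ∈ range M, ∑ l ∈ range M,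
      f ((u * b ^ k * c ^ l : ℤ) : ZMod p) * g ((u * b ^ k * c ^ l : ℤ) : ZMod q)‖ ≤
      A * B * (M : ℝ) ^ 2 * Nat.gcd (q - 1) (p - 1) := by
  obtain ⟨S, h1, h2, h3, h4⟩ := exists_set b c s hb hb' hc hc' hG hG'
  have h5 := card_VV_le b c S h1 h2 h3
  have h6 := pair_sum f g b c u hb hb' hc hc' hu hu' hM hA hA' hB hB'
  set N : ℝ := ‖∑ k ∈ range M, ∑ l ∈ range M,
      f ((u * b ^ k * c ^ l : ℤ) : ZMod p) * g ((u * b ^ k * c ^ l : ℤ) : ZMod q)‖ with hN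
  have hN0 : 0 ≤ N := norm_nonneg _
  set V : ℝ := ((VV (p := p) (q := q) b c).card : ℝ) with hV
  have hp1 : (0 : ℝ) < (p : ℝ) - 1 := by
    have : (1 : ℝ) < p := by exact_mod_cast hp.out.one_lt
    linarith
  have hq1 : (0 : ℝ) < (q : ℝ) - 1 := by
    have : (1 : ℝ) < q := by exact_mod_cast hq.out.one_lt
    linarith
  have hW : (0 : ℝ) < ((p : ℝ) - 1) * ((q : ℝ) - 1) := mul_pos hp1 hq1
  set W : ℝ := ((p : ℝ) - 1) * ((q : ℝ) - 1) with hWd
  have h7 : ((s : ℝ) + 1) ^ 4 ≤ Nat.gcd (q - 1) (p - 1) * S.card := by exact_mod_cast h4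
  have hR : 0 ≤ A * B * (M : ℝ) ^ 2 := by positivity
  have h8 : W * (((s : ℝ) + 1) ^ 4 * N) ≤ W * (A * B * (M : ℝ) ^ 2 * Nat.gcd (q - 1) (p - 1)) := by
    calc W * (((s : ℝ) + 1) ^ 4 * N) = ((s : ℝ) + 1) ^ 4 * (W * N) := by ring
      _ ≤ (Nat.gcd (q - 1) (p - 1) * S.card) * (A * B * (M : ℝ) ^ 2 * V) :=
          mul_le_mul h7 h6 (by positivity) (by positivity)
      _ = (V * S.card) * (A * B * (M : ℝ) ^ 2 * Nat.gcd (q - 1) (p - 1)) := by ring
      _ ≤ W * (A * B * (M : ℝ) ^ 2 * Nat.gcd (q - 1) (p - 1)) :=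
          mul_le_mul_of_nonneg_right h5 (by positivity)
  exact le_of_mul_le_mul_left h8 hW

end two

end Pool.Agent.H73.KS
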