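import Pool.Agent.H73.KS.Bad

set_option autoImplicit false

/-!
# The variance of sums over primes along `u b ^ k c ^ l`
-/

namespace Pool.Agent.H73.KS

open Finset

/-- bounded functions of the residues with small multiplicative Fourier coefficients -/
def Adm (B : ℝ) (F : ∀ p : ℕ, ZMod p → ℝ) : Prop :=
  0 ≤ B ∧ ∀ p : ℕ, ∀ _ : Fact p.Prime, (∀ a, |F p a| ≤ B) ∧
    ∀ χ : DirichletCharacter ℂ p, ‖hat (fun a => (F p a : ℂ)) χ‖ ≤ B * Real.sqrt p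

/-- the primes up to `x` not dividing `u b c` -/
noncomputable def Qs (b c : ℕ) (u : ℤ) (x : ℕ) : Finset ℕ :=
  open scoped Classical in
  (range (x + 1)).filter fun p => p.Prime ∧ ¬ (p : ℤ) ∣ u ∧ ¬ p ∣ b ∧ ¬ p ∣ c

theorem mem_Qs {b c : ℕ} {u : ℤ} {x p : ℕ} :
    p ∈ Qs b c u x ↔ p ≤ x ∧ p.Prime ∧ ¬ (p : ℤ) ∣ u ∧ ¬ p ∣ b ∧ ¬ p ∣ c := by
  unfold Qs
  rw [mem_filter, mem_range, Nat.lt_succ_iff]

/-- the argument -/
def arg (b c : ℕ) (u : ℤ) (k l : ℕ) : ℤ := u * (b : ℤ) ^ k * (c : ℤ) ^ l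

/-- the correlations for good primes -/
theorem pair_box {B : ℝ} {F : ∀ p : ℕ, ZMod p → ℝ} (hF : Adm B F) {b c : ℕ} {u : ℤ}
    {x s p q : ℕ} (hp : p ∈ Qs b c u x) (hq : q ∈ Qs b c u x) (hG : Good b c s p)
    (hG' : Good b c s q) (N : ℕ) :
    |∑ k ∈ range N, ∑ l ∈ range N, F p (arg b c u k l : ZMod p) * F q (arg b c u k l : ZMod q)| ≤
      B ^ 2 * x * (N : ℝ) ^ 2 / ((s : ℝ) + 1) ^ 4 * Nat.gcd (q - 1) (p - 1) +
        2 * B ^ 2 * N * (x : ℝ) ^ 2 := by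
  classical
  rw [mem_Qs] at hp hq
  obtain ⟨hpx, hpp, hpu, hpb, hpc⟩ := hp
  obtain ⟨hqx, hqp, hqu, hqb, hqc⟩ := hq
  have fp : Fact p.Prime := ⟨hpp⟩
  have fq : Fact q.Prime := ⟨hqp⟩
  obtain ⟨hB0, hF'⟩ := hF
  have c1 : ∀ {r : ℕ} (_ : Fact r.Prime) {n : ℕ}, ¬ r ∣ n → (((n : ℤ)) : ZMod r) ≠ 0 := by
    intro r _ n hn h
    rw [Int.cast_natCast] at h
    exact hn ((ZMod.natCast_eq_zero_iff _ _).1 h)
  have c2 : ∀ {r : ℕ} (_ : Fact r.Prime) {n : ℤ}, ¬ (r : ℤ) ∣ n → ((n : ℤ) : ZMod r) ≠ 0 := by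
    intro r _ n hn h
    exact hn ((ZMod.intCast_zmod_eq_zero_iff_dvd _ _).1 h)
  set M₀ : ℕ := (p - 1) * (q - 1) with hM₀
  have hM₀1 : 1 ≤ M₀ := by
    have h1 := hpp.two_le
    have h2 := hqp.two_le
    exact Nat.mul_pos (by omega) (by omega)
  have hM₀x : M₀ ≤ x ^ 2 := by
    rw [sq]
    exact Nat.mul_le_mul (by omega) (by omega)
  set M : ℕ := M₀ * (N / M₀) with hM
  have hMN : M ≤ N := Nat.mul_div_le N M₀
  have hNM : N ≤ M + M₀ := by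
    have h1 := Nat.div_add_mod N M₀
    have h2 := Nat.mod_lt N hM₀1
    omega
  set φ : ℕ × ℕ → ℝ := fun e => F p (arg b c u e.1 e.2 : ZMod p) * F q (arg b c u e.1 e.2 : ZMod q)
    with hφ
  have hφB : ∀ e, |φ e| ≤ B ^ 2 := by
    intro e
    rw [hφ]
    simp only
    rw [abs_mul, sq]
    exact mul_le_mul ((hF' p fp).1 _) ((hF' q fq).1 _) (abs_nonneg _) hB0
  have e1 : ∑ k ∈ range N, ∑ l ∈ range N, F p (arg b c u k l : ZMod p) *
      F q (arg b c u k l : ZMod q) = ∑ e ∈ range N ×ˢ range N, φ e := by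
    rw [sum_product]
  have hsub : range M ×ˢ range M ⊆ range N ×ˢ range N :=
    product_subset_product (range_subset_range.2 hMN) (range_subset_range.2 hMN)
  have e2 := sum_sdiff (f := φ) hsub
  have h3 : |∑ e ∈ (range N ×ˢ range N) \ (range M ×ˢ range M), φ e| ≤
      2 * B ^ 2 * N * (x : ℝ) ^ 2 := by
    refine (abs_sum_le_sum_abs _ _).trans ((sum_le_sum fun e _ => hφB e).trans ?_)
    rw [sum_const, card_sdiff_of_subset hsub, card_product, card_product, card_range,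
      card_range, nsmul_eq_mul]
    have h4 : N * N - M * M ≤ 2 * N * M₀ := by
      have : N * N ≤ M * M + 2 * N * M₀ := by nlinarith
      omega
    have h5 : ((N * N - M * M : ℕ) : ℝ) ≤ 2 * N * M₀ := by exact_mod_cast h4
    have h6 : (M₀ : ℝ) ≤ (x : ℝ) ^ 2 := by exact_mod_cast hM₀x
    calc ((N * N - M * M : ℕ) : ℝ) * B ^ 2 ≤ (2 * N * M₀) * B ^ 2 := by gcongr
      _ ≤ (2 * N * (x : ℝ) ^ 2) * B ^ 2 := by gcongr
      _ = _ := by ring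
  have h4 : |∑ e ∈ range M ×ˢ range M, φ e| ≤
      B ^ 2 * x * (N : ℝ) ^ 2 / ((s : ℝ) + 1) ^ 4 * Nat.gcd (q - 1) (p - 1) := by
    have h5 := pair_le (p := p) (q := q) (fun a => (F p a : ℂ)) (fun a => (F q a : ℂ)) (b : ℤ)
      (c : ℤ) u s (c1 fp hpb) (c1 fq hqb) (c1 fp hpc) (c1 fq hqc) (c2 fp hpu) (c2 fq hqu) hG hG'
      (M := M) (Dvd.intro _ rfl) (A := B * Real.sqrt p) (B := B * Real.sqrt q) (by positivity)
      (hF' p fp).2 (by positivity) (hF' q fq).2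
    have h6 : ‖∑ k ∈ range M, ∑ l ∈ range M,
        ((F p (((u * (b : ℤ) ^ k * (c : ℤ) ^ l : ℤ)) : ZMod p) : ℝ) : ℂ) *
        ((F q (((u * (b : ℤ) ^ k * (c : ℤ) ^ l : ℤ)) : ZMod q) : ℝ) : ℂ)‖ =
        |∑ e ∈ range M ×ˢ range M, φ e| := by
      rw [← Real.norm_eq_abs, ← Complex.norm_real]
      congr 1
      rw [sum_product, Complex.ofReal_sum]
      refine sum_congr rfl fun k _ => ?_
      rw [Complex.ofReal_sum]
      refine sum_congr rfl fun l _ => ?_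
      rw [hφ]
      simp only [arg]
      rw [Complex.ofReal_mul]
    rw [h6] at h5
    have hs : (0 : ℝ) < ((s : ℝ) + 1) ^ 4 := by positivity
    have h7 : B * Real.sqrt p * (B * Real.sqrt q) * (M : ℝ) ^ 2 * Nat.gcd (q - 1) (p - 1) ≤
        B ^ 2 * x * (N : ℝ) ^ 2 * Nat.gcd (q - 1) (p - 1) := by
      have h8 : Real.sqrt p ≤ Real.sqrt x := Real.sqrt_le_sqrt (by exact_mod_cast hpx)
      have h9 : Real.sqrt q ≤ Real.sqrt x := Real.sqrt_le_sqrt (by exact_mod_cast hqx)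
      have h10 : (M : ℝ) ≤ N := by exact_mod_cast hMN
      have h11 : Real.sqrt x * Real.sqrt x = x := Real.mul_self_sqrt (Nat.cast_nonneg _)
      calc B * Real.sqrt p * (B * Real.sqrt q) * (M : ℝ) ^ 2 * Nat.gcd (q - 1) (p - 1) ≤
            B * Real.sqrt x * (B * Real.sqrt x) * (N : ℝ) ^ 2 * Nat.gcd (q - 1) (p - 1) := by
              gcongr
        _ = B ^ 2 * (Real.sqrt x * Real.sqrt x) * (N : ℝ) ^ 2 * Nat.gcd (q - 1) (p - 1) := by ring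
        _ = _ := by rw [h11]
    have h8 := h5.trans h7
    rw [div_mul_eq_mul_div, le_div_iff₀ hs]
    linarith
  rw [e1, ← e2]
  refine (abs_add_le _ _).trans ?_
  linarith

/-- the variance -/
theorem variance (b c : ℕ) (hb : 2 ≤ b) (hc : 2 ≤ c) (hind : ∀ i j : ℕ, b ^ i = c ^ j → i = 0)
    {B : ℝ} {F : ∀ p : ℕ, ZMod p → ℝ} (hF : Adm B F) (u : ℤ) {m N : ℕ} (hm : 1 ≤ m)
    (hN : m ^ 120 ≤ N) :
    ∑ k ∈ range N, ∑ l ∈ range N,
      (∑ p ∈ Qs b c u (m ^ 40), F p (arg b c u k l : ZMod p)) ^ 2 ≤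
      (42 + 32 * (b * c)) * B ^ 2 * (N : ℝ) ^ 2 * (m : ℝ) ^ 76 := by
  classical
  set x : ℕ := m ^ 40 with hx
  set s : ℕ := m ^ 12 with hs
  set Q : Finset ℕ := Qs b c u x with hQ
  set Bad : Finset ℕ := Q.filter fun p => ¬ Good b c s p with hBad
  set R : ℕ → ℕ → ℝ := fun p q => ∑ k ∈ range N, ∑ l ∈ range N,
    F p (arg b c u k l : ZMod p) * F q (arg b c u k l : ZMod q) with hR
  have hB0 := hF.1
  have hm1 : (1 : ℝ) ≤ m := by exact_mod_cast hm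
  have e1 : ∑ k ∈ range N, ∑ l ∈ range N,
      (∑ p ∈ Q, F p (arg b c u k l : ZMod p)) ^ 2 = ∑ p ∈ Q, ∑ q ∈ Q, R p q := by
    have e2 : ∀ k l : ℕ, (∑ p ∈ Q, F p (arg b c u k l : ZMod p)) ^ 2 =
        ∑ p ∈ Q, ∑ q ∈ Q, F p (arg b c u k l : ZMod p) * F q (arg b c u k l : ZMod q) := by
      intro k l
      rw [sq, sum_mul_sum]
    simp_rw [e2]
    rw [hR]
    simp only
    calc ∑ k ∈ range N, ∑ l ∈ range N, ∑ p ∈ Q, ∑ q ∈ Q,
          F p (arg b c u k l : ZMod p) * F q (arg b c u k l : ZMod q) =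
        ∑ k ∈ range N, ∑ p ∈ Q, ∑ l ∈ range N, ∑ q ∈ Q,
          F p (arg b c u k l : ZMod p) * F q (arg b c u k l : ZMod q) :=
          sum_congr rfl fun k _ => sum_comm
      _ = ∑ p ∈ Q, ∑ k ∈ range N, ∑ l ∈ range N, ∑ q ∈ Q,
          F p (arg b c u k l : ZMod p) * F q (arg b c u k l : ZMod q) := sum_comm
      _ = ∑ p ∈ Q, ∑ k ∈ range N, ∑ q ∈ Q, ∑ l ∈ range N,
          F p (arg b c u k l : ZMod p) * F q (arg b c u k l : ZMod q) :=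
          sum_congr rfl fun p _ => sum_congr rfl fun k _ => sum_comm
      _ = _ := sum_congr rfl fun p _ => sum_comm
  rw [e1]
  -- pointwise bound
  set T : ℝ := B ^ 2 * x * (N : ℝ) ^ 2 / ((s : ℝ) + 1) ^ 4 with hT
  have hT0 : 0 ≤ T := by positivity
  have h1 : ∀ p ∈ Q, ∀ q ∈ Q, R p q ≤
      (T * Nat.gcd (q - 1) (p - 1) + 2 * B ^ 2 * N * (x : ℝ) ^ 2) +
        ((if p ∈ Bad then B ^ 2 * (N : ℝ) ^ 2 else 0) +
          (if q ∈ Bad then B ^ 2 * (N : ℝ) ^ 2 else 0)) := by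
    intro p hp q hq
    have hpos1 : 0 ≤ T * Nat.gcd (q - 1) (p - 1) + 2 * B ^ 2 * N * (x : ℝ) ^ 2 := by positivity
    have hpos2 : 0 ≤ (if p ∈ Bad then B ^ 2 * (N : ℝ) ^ 2 else 0) := by
      split_ifs <;> positivity
    have hpos3 : 0 ≤ (if q ∈ Bad then B ^ 2 * (N : ℝ) ^ 2 else 0) := by
      split_ifs <;> positivity
    by_cases hG : Good b c s p ∧ Good b c s q
    · have h2 := (le_abs_self _).trans (pair_box hF hp hq hG.1 hG.2 N)
      rw [hR]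
      simp only
      linarith
    · have h2 : R p q ≤ B ^ 2 * (N : ℝ) ^ 2 := by
        have hpp := (mem_Qs.1 hp).2.1
        have hqp := (mem_Qs.1 hq).2.1
        rw [hR]
        simp only
        calc ∑ k ∈ range N, ∑ l ∈ range N,
              F p (arg b c u k l : ZMod p) * F q (arg b c u k l : ZMod q) ≤
            ∑ k ∈ range N, ∑ l ∈ range N, B ^ 2 := by
              refine sum_le_sum fun k _ => sum_le_sum fun l _ => ?_
              refine (le_abs_self _).trans ?_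
              rw [abs_mul, sq]
              exact mul_le_mul ((hF.2 p ⟨hpp⟩).1 _) ((hF.2 q ⟨hqp⟩).1 _) (abs_nonneg _) hB0
          _ = B ^ 2 * (N : ℝ) ^ 2 := by
              rw [sum_const, sum_const, card_range, nsmul_eq_mul, nsmul_eq_mul]
              ring
      rw [not_and_or] at hG
      rcases hG with hG | hG
      · have h3 : p ∈ Bad := by
          rw [hBad, mem_filter]
          exact ⟨hp, hG⟩
        rw [if_pos h3]
        linarith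
      · have h3 : q ∈ Bad := by
          rw [hBad, mem_filter]
          exact ⟨hq, hG⟩
        rw [if_pos h3]
        linarith
  have hQc : (Q.card : ℝ) ≤ x := by
    have h2 : Q ⊆ Ioc 0 x := by
      intro p hp
      rw [hQ, mem_Qs] at hp
      rw [mem_Ioc]
      exact ⟨hp.2.1.pos, hp.1⟩
    have h3 := card_le_card h2
    rw [Nat.card_Ioc, Nat.sub_zero] at h3
    exact_mod_cast h3
  have hBc : (Bad.card : ℝ) ≤ 2 * (b * c) * ((s : ℝ) + 1) ^ 3 := by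
    have h2 := bad_card b c hb hc hind s Bad (by
      intro p hp
      rw [hBad, mem_filter] at hp
      have h3 := mem_Qs.1 hp.1
      exact ⟨h3.2.1, h3.2.2.2.1, h3.2.2.2.2, hp.2⟩)
    exact_mod_cast h2
  have hgcd : ∑ p ∈ Q, ∑ q ∈ Q, (Nat.gcd (q - 1) (p - 1) : ℝ) ≤
      (x : ℝ) ^ 2 * (1 + Real.log x) := by
    refine le_trans ?_ (gcd_sum x)
    push_cast
    have h2 : ∀ p ∈ Q, p - 1 ∈ Ioc 0 x := by
      intro p hp
      rw [hQ, mem_Qs] at hp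
      rw [mem_Ioc]
      have := hp.2.1.two_le
      omega
    have hinj : Set.InjOn (fun p : ℕ => p - 1) (Q : Set ℕ) := by
      intro p hp q hq h
      rw [mem_coe, hQ, mem_Qs] at hp hq
      have h3 := hp.2.1.two_le
      have h4 := hq.2.1.two_le
      simp only at h
      omega
    have h3 : ∀ g : ℕ → ℝ, (∀ n, 0 ≤ g n) → ∑ p ∈ Q, g (p - 1) ≤ ∑ n ∈ Ioc 0 x, g n := by
      intro g hg
      rw [← sum_image (f := g) (g := fun p : ℕ => p - 1) hinj]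
      refine sum_le_sum_of_subset_of_nonneg ?_ fun _ _ _ => hg _
      intro n hn
      rw [mem_image] at hn
      obtain ⟨p, hp, rfl⟩ := hn
      exact h2 p hp
    calc ∑ p ∈ Q, ∑ q ∈ Q, (Nat.gcd (q - 1) (p - 1) : ℝ) ≤
          ∑ p ∈ Q, ∑ n ∈ Ioc 0 x, (Nat.gcd n (p - 1) : ℝ) :=
            sum_le_sum fun p _ => h3 (fun n => (Nat.gcd n (p - 1) : ℝ)) fun _ => by positivity
      _ ≤ ∑ m ∈ Ioc 0 x, ∑ n ∈ Ioc 0 x, (Nat.gcd n m : ℝ) :=
            h3 (fun m => ∑ n ∈ Ioc 0 x, (Nat.gcd n m : ℝ)) fun _ => by positivity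
  have hlog : 1 + Real.log x ≤ 40 * m := by
    have h2 : Real.log x = 40 * Real.log m := by
      rw [hx]
      push_cast
      rw [Real.log_pow]
      norm_num
    have h3 : Real.log m ≤ m - 1 := Real.log_le_sub_one_of_pos (by linarith)
    rw [h2]
    linarith
  have hsum : ∑ p ∈ Q, ∑ q ∈ Q, R p q ≤
      T * ((x : ℝ) ^ 2 * (40 * m)) + 2 * B ^ 2 * N * (x : ℝ) ^ 2 * (x * x) +
        2 * ((2 * (b * c) * ((s : ℝ) + 1) ^ 3) * x * (B ^ 2 * (N : ℝ) ^ 2)) := by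
    refine (sum_le_sum fun p hp => sum_le_sum fun q hq => h1 p hp q hq).trans ?_
    simp_rw [sum_add_distrib]
    have a1 : ∑ p ∈ Q, ∑ q ∈ Q, T * (Nat.gcd (q - 1) (p - 1) : ℝ) ≤
        T * ((x : ℝ) ^ 2 * (40 * m)) := by
      simp_rw [← mul_sum]
      refine mul_le_mul_of_nonneg_left (hgcd.trans ?_) hT0
      gcongr
    have a2 : ∑ p ∈ Q, ∑ q ∈ Q, 2 * B ^ 2 * N * (x : ℝ) ^ 2 ≤
        2 * B ^ 2 * N * (x : ℝ) ^ 2 * (x * x) := by
      rw [sum_const, sum_const, nsmul_eq_mul, nsmul_eq_mul]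
      calc (Q.card : ℝ) * (Q.card * (2 * B ^ 2 * N * (x : ℝ) ^ 2)) ≤
            x * (x * (2 * B ^ 2 * N * (x : ℝ) ^ 2)) := by gcongr
        _ = _ := by ring
    have hbadsum : ∑ p ∈ Q, (if p ∈ Bad then B ^ 2 * (N : ℝ) ^ 2 else 0) ≤
        (2 * (b * c) * ((s : ℝ) + 1) ^ 3) * (B ^ 2 * (N : ℝ) ^ 2) := by
      rw [sum_ite_mem, sum_const, nsmul_eq_mul]
      have h2 : ((Q ∩ Bad).card : ℝ) ≤ 2 * (b * c) * ((s : ℝ) + 1) ^ 3 :=
        le_trans (by exact_mod_cast card_le_card inter_subset_right) hBc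
      gcongr
    have a3 : ∑ p ∈ Q, ∑ _q ∈ Q, (if p ∈ Bad then B ^ 2 * (N : ℝ) ^ 2 else 0) ≤
        (2 * (b * c) * ((s : ℝ) + 1) ^ 3) * x * (B ^ 2 * (N : ℝ) ^ 2) := by
      rw [sum_comm, sum_const, nsmul_eq_mul]
      calc (Q.card : ℝ) * ∑ p ∈ Q, (if p ∈ Bad then B ^ 2 * (N : ℝ) ^ 2 else 0) ≤
          x * ((2 * (b * c) * ((s : ℝ) + 1) ^ 3) * (B ^ 2 * (N : ℝ) ^ 2)) := by
            apply mul_le_mul hQc hbadsum _ (by positivity)
            exact sum_nonneg fun p _ => by split_ifs <;> positivity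
        _ = _ := by ring
    have a4 : ∑ _p ∈ Q, ∑ q ∈ Q, (if q ∈ Bad then B ^ 2 * (N : ℝ) ^ 2 else 0) ≤
        (2 * (b * c) * ((s : ℝ) + 1) ^ 3) * x * (B ^ 2 * (N : ℝ) ^ 2) := by
      rw [sum_comm]
      exact a3
    linarith
  refine hsum.trans ?_
  -- the final estimate
  have hN' : (m : ℝ) ^ 120 ≤ N := by exact_mod_cast hN
  have hxr : (x : ℝ) = (m : ℝ) ^ 40 := by rw [hx]; push_cast; rfl
  have hsr : (s : ℝ) = (m : ℝ) ^ 12 := by rw [hs]; push_cast; rfl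
  have f1 : T * ((x : ℝ) ^ 2 * (40 * m)) ≤ 40 * B ^ 2 * (N : ℝ) ^ 2 * (m : ℝ) ^ 76 := by
    have g1 : (m : ℝ) ^ 48 ≤ ((s : ℝ) + 1) ^ 4 := by
      rw [hsr]
      calc (m : ℝ) ^ 48 = ((m : ℝ) ^ 12) ^ 4 := by ring
        _ ≤ _ := by gcongr; linarith
    have g2 : T ≤ B ^ 2 * x * (N : ℝ) ^ 2 / (m : ℝ) ^ 48 := by
      rw [hT]
      gcongr
    have g3 : B ^ 2 * x * (N : ℝ) ^ 2 / (m : ℝ) ^ 48 * ((x : ℝ) ^ 2 * (40 * m)) =
        40 * B ^ 2 * (N : ℝ) ^ 2 * (m : ℝ) ^ 73 := by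
      rw [hxr]
      field_simp
    calc T * ((x : ℝ) ^ 2 * (40 * m)) ≤
          B ^ 2 * x * (N : ℝ) ^ 2 / (m : ℝ) ^ 48 * ((x : ℝ) ^ 2 * (40 * m)) := by gcongr
      _ = 40 * B ^ 2 * (N : ℝ) ^ 2 * (m : ℝ) ^ 73 := g3
      _ ≤ _ := by
          have : (m : ℝ) ^ 73 ≤ (m : ℝ) ^ 76 := pow_le_pow_right₀ hm1 (by norm_num)
          gcongr
  have f2 : 2 * B ^ 2 * N * (x : ℝ) ^ 2 * (x * x) ≤ 2 * B ^ 2 * (N : ℝ) ^ 2 * (m : ℝ) ^ 76 := by
    rw [hxr]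
    calc 2 * B ^ 2 * N * ((m : ℝ) ^ 40) ^ 2 * ((m : ℝ) ^ 40 * (m : ℝ) ^ 40) =
          2 * B ^ 2 * N * ((m : ℝ) ^ 120 * (m : ℝ) ^ 40) := by ring
      _ ≤ 2 * B ^ 2 * N * (N * (m : ℝ) ^ 76) := by
          have : (m : ℝ) ^ 40 ≤ (m : ℝ) ^ 76 := pow_le_pow_right₀ hm1 (by norm_num)
          gcongr
      _ = _ := by ring
  have f3 : 2 * ((2 * (b * c) * ((s : ℝ) + 1) ^ 3) * x * (B ^ 2 * (N : ℝ) ^ 2)) ≤
      32 * (b * c) * B ^ 2 * (N : ℝ) ^ 2 * (m : ℝ) ^ 76 := by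
    have g1 : (s : ℝ) + 1 ≤ 2 * (m : ℝ) ^ 12 := by
      rw [hsr]
      have : (1 : ℝ) ≤ (m : ℝ) ^ 12 := one_le_pow₀ hm1
      linarith
    calc 2 * ((2 * (b * c) * ((s : ℝ) + 1) ^ 3) * x * (B ^ 2 * (N : ℝ) ^ 2)) ≤
          2 * ((2 * (b * c) * (2 * (m : ℝ) ^ 12) ^ 3) * x * (B ^ 2 * (N : ℝ) ^ 2)) := by gcongr
      _ = _ := by rw [hxr]; ring
  linarith

end Pool.Agent.H73.KS
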